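import Mathlib

open Finset Filter Topology

namespace Pool.Agent.X10.SC

/-- `A_{p,q} = {p^α q^β}`. -/
def A (p q : ℕ) : Set ℕ := {a | ∃ α β : ℕ, a = p ^ α * q ^ β}

/-- `f_{p,q}(n)`: the number of finite subsets of `A_{p,q}` with sum `n`. -/
noncomputable def f (p q n : ℕ) : ℕ := {S : Finset ℕ | (S : Set ℕ) ⊆ A p q ∧ ∑ s ∈ S, s = n}.ncard

variable {p q : ℕ}

/-- the elements of `A_{p,q}`, indexed -/
def a (p q : ℕ) (x : ℕ × ℕ) : ℕ := p ^ x.1 * q ^ x.2

lemma a_pos (hp : 1 < p) (hq : 1 < q) (x : ℕ × ℕ) : 0 < a p q x :=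
  Nat.mul_pos (pow_pos (by omega) _) (pow_pos (by omega) _)

lemma a_inj (hp : 1 < p) (hq : 1 < q) (hc : Nat.Coprime p q) : Function.Injective (a p q) := by
  have key : ∀ i j i' j' : ℕ, p ^ i * q ^ j = p ^ i' * q ^ j' → i ≤ i' := by
    intro i j i' j' h
    have h1 : p ^ i ∣ p ^ i' * q ^ j' := ⟨q ^ j, h.symm⟩
    have h2 : p ^ i ∣ p ^ i' := (Nat.Coprime.pow i j' hc).dvd_of_dvd_mul_right h1
    exact (Nat.pow_dvd_pow_iff_le_right hp).mp h2
  rintro ⟨i, j⟩ ⟨i', j'⟩ h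
  have h' : p ^ i * q ^ j = p ^ i' * q ^ j' := h
  have e1 : i = i' := le_antisymm (key _ _ _ _ h') (key _ _ _ _ h'.symm)
  subst e1
  have h2 : q ^ j = q ^ j' := Nat.eq_of_mul_eq_mul_left (pow_pos (by omega) _) h'
  have e2 : j = j' := Nat.pow_right_injective hq h2
  rw [e2]

/-- sum of a finite set of indices -/
def e (p q : ℕ) (T : Finset (ℕ × ℕ)) : ℕ := ∑ x ∈ T, a p q x

lemma fiber_finite (hp : 1 < p) (hq : 1 < q) (n : ℕ) : {T : Finset (ℕ × ℕ) | e p q T = n}.Finite := by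
  apply Set.Finite.subset ((range (n + 1) ×ˢ range (n + 1)).powerset.finite_toSet)
  intro T hT
  rw [Finset.mem_coe, mem_powerset]
  intro x hx
  have h1 : a p q x ≤ n := by
    have h2 : e p q T = n := hT
    rw [← h2]
    exact single_le_sum (f := fun x => a p q x) (fun _ _ => Nat.zero_le _) hx
  have h3 : x.1 < p ^ x.1 := Nat.lt_pow_self hp
  have h4 : x.2 < q ^ x.2 := Nat.lt_pow_self hq
  have h5 : 1 ≤ p ^ x.1 := Nat.one_le_pow _ _ (by omega)
  have h6 : 1 ≤ q ^ x.2 := Nat.one_le_pow _ _ (by omega)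
  have h7 : p ^ x.1 ≤ a p q x := Nat.le_mul_of_pos_right _ h6
  have h8 : q ^ x.2 ≤ a p q x := Nat.le_mul_of_pos_left _ h5
  have h9 : p ^ x.1 ≤ n := h7.trans h1
  have h10 : q ^ x.2 ≤ n := h8.trans h1
  rw [mem_product, mem_range, mem_range]
  constructor <;> omega

lemma f_eq (hp : 1 < p) (hq : 1 < q) (hc : Nat.Coprime p q) (n : ℕ) :
    f p q n = {T : Finset (ℕ × ℕ) | e p q T = n}.ncard := by
  unfold f
  symm
  set em : (ℕ × ℕ) ↪ ℕ := ⟨a p q, a_inj hp hq hc⟩ with hem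
  apply Set.ncard_congr (fun T _ => T.map em)
  · intro T hT
    refine ⟨?_, ?_⟩
    · intro s hs
      rw [Finset.mem_coe, Finset.mem_map] at hs
      obtain ⟨x, _, rfl⟩ := hs
      exact ⟨x.1, x.2, rfl⟩
    · rw [Finset.sum_map]
      exact hT
  · intro T T' _ _ h
    exact Finset.map_injective em h
  · rintro S ⟨hS, hsum⟩
    have h1 : ∀ s ∈ S, ∃ x, a p q x = s := by
      intro s hs
      obtain ⟨α, β, h⟩ := hS hs
      exact ⟨(α, β), h.symm⟩
    choose! g hg using h1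
    have h2 : (S.image g).map em = S := by
      ext s
      rw [Finset.mem_map]
      constructor
      · rintro ⟨x, hx, rfl⟩
        obtain ⟨s', hs', rfl⟩ := mem_image.mp hx
        show a p q (g s') ∈ S
        rw [hg s' hs']
        exact hs'
      · intro hs
        exact ⟨g s, mem_image_of_mem g hs, hg s hs⟩
    refine ⟨S.image g, ?_, h2⟩
    show e p q (S.image g) = n
    have h3 : ∑ s ∈ (S.image g).map em, s = e p q (S.image g) := by
      rw [Finset.sum_map]; rfl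
    rw [← h3, h2, hsum]

/-! ### Generating functions -/

/-- `F(z) = ∏ (1 + z^a)` over all `a ∈ A_{p,q}`. -/
noncomputable def F (p q : ℕ) (z : ℂ) : ℂ := ∏' x : ℕ × ℕ, (1 + z ^ a p q x)

/-- `G(z) = ∏ (1 + z^(q^j))`. -/
noncomputable def G (q : ℕ) (z : ℂ) : ℂ := ∏' j : ℕ, (1 + z ^ (q ^ j))

lemma summable_norm (hp : 1 < p) (hq : 1 < q) (hc : Nat.Coprime p q) {z : ℂ} (hz : ‖z‖ < 1) :
    Summable (fun x => ‖z ^ a p q x‖) := by
  have h1 : Summable (fun n : ℕ => ‖z‖ ^ n) := summable_geometric_of_lt_one (norm_nonneg z) hz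
  have h2 := h1.comp_injective (a_inj hp hq hc)
  refine h2.congr ?_
  intro x
  rw [Function.comp_apply, norm_pow]

lemma summable_norm_q (hq : 1 < q) {z : ℂ} (hz : ‖z‖ < 1) : Summable (fun j : ℕ => ‖z ^ (q ^ j)‖) := by
  have h1 : Summable (fun n : ℕ => ‖z‖ ^ n) := summable_geometric_of_lt_one (norm_nonneg z) hz
  have h2 := h1.comp_injective (Nat.pow_right_injective hq)
  refine h2.congr ?_
  intro x
  rw [Function.comp_apply, norm_pow]

lemma hasProd_F (hp : 1 < p) (hq : 1 < q) (hc : Nat.Coprime p q) {z : ℂ} (hz : ‖z‖ < 1) :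
    HasProd (fun x : ℕ × ℕ => 1 + z ^ a p q x) (F p q z) :=
  (multipliable_one_add_of_summable (summable_norm hp hq hc hz)).hasProd

lemma hasProd_G (hq : 1 < q) {z : ℂ} (hz : ‖z‖ < 1) :
    HasProd (fun j : ℕ => 1 + z ^ (q ^ j)) (G q z) :=
  (multipliable_one_add_of_summable (summable_norm_q hq hz)).hasProd

lemma one_add_ne {w : ℂ} (hw : ‖w‖ < 1) : 1 + w ≠ 0 := by
  intro h
  have : w = -1 := by linear_combination h
  rw [this, norm_neg, norm_one] at hw
  exact lt_irrefl _ hw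

lemma G_ne (hq : 1 < q) {z : ℂ} (hz : ‖z‖ < 1) : G q z ≠ 0 := by
  apply tprod_one_add_ne_zero_of_summable
  · intro j
    apply one_add_ne
    rw [norm_pow]
    exact pow_lt_one₀ (norm_nonneg _) hz (pow_pos (by omega) _).ne'
  · exact summable_norm_q hq hz

lemma F_ne (hp : 1 < p) (hq : 1 < q) (hc : Nat.Coprime p q) {z : ℂ} (hz : ‖z‖ < 1) :
    F p q z ≠ 0 := by
  apply tprod_one_add_ne_zero_of_summable
  · intro x
    apply one_add_ne
    rw [norm_pow]
    exact pow_lt_one₀ (norm_nonneg _) hz (a_pos hp hq x).ne'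
  · exact summable_norm hp hq hc hz

lemma norm_pow_lt {z : ℂ} (hz : ‖z‖ < 1) {m : ℕ} (hm : 0 < m) : ‖z ^ m‖ < 1 := by
  rw [norm_pow]
  exact pow_lt_one₀ (norm_nonneg _) hz hm.ne'

lemma G_fun (hq : 1 < q) {z : ℂ} (hz : ‖z‖ < 1) : G q z = (1 + z) * G q (z ^ q) := by
  unfold G
  have h1 := (hasProd_G hq (norm_pow_lt hz (show 0 < q by omega))).multipliable
  have h2 : (fun j : ℕ => 1 + (z ^ q) ^ (q ^ j)) = fun j : ℕ => 1 + z ^ (q ^ (j + 1)) := by
    funext j
    rw [← pow_mul, pow_succ']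
  rw [h2] at h1 ⊢
  rw [tprod_eq_zero_mul' h1, pow_zero, pow_one]

lemma F_fun (hp : 1 < p) (hq : 1 < q) (hc : Nat.Coprime p q) {z : ℂ} (hz : ‖z‖ < 1) :
    F p q z = G q z * F p q (z ^ p) := by
  have key : ∀ w : ℂ, ‖w‖ < 1 → HasProd (fun i : ℕ => G q (w ^ (p ^ i))) (F p q w) := by
    intro w hw
    apply (hasProd_F hp hq hc hw).prod_fiberwise
    intro i
    have h1 := hasProd_G hq (norm_pow_lt hw (show 0 < p ^ i from pow_pos (by omega) _))
    have h2 : (fun j : ℕ => 1 + (w ^ (p ^ i)) ^ (q ^ j)) = fun j : ℕ => 1 + w ^ a p q (i, j) := by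
      funext j
      rw [← pow_mul]; rfl
    rw [h2] at h1
    exact h1
  have h1 := key z hz
  have h2 := key (z ^ p) (norm_pow_lt hz (by omega))
  have h3 : (fun i : ℕ => G q ((z ^ p) ^ (p ^ i))) = fun i : ℕ => G q (z ^ (p ^ (i + 1))) := by
    funext i
    rw [← pow_mul, pow_succ']
  rw [h3] at h2
  rw [← h1.tprod_eq, tprod_eq_zero_mul' h2.multipliable, h2.tprod_eq, pow_zero, pow_one]

/-- the power series of `F` -/
lemma hasSum_F (hp : 1 < p) (hq : 1 < q) (hc : Nat.Coprime p q) {z : ℂ} (hz : ‖z‖ < 1) :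
    HasSum (fun n : ℕ => (f p q n : ℂ) * z ^ n) (F p q z) := by
  have hs := summable_finsetProd_of_summable_norm (summable_norm hp hq hc hz)
  have h1 : HasSum (fun T : Finset (ℕ × ℕ) => z ^ e p q T) (F p q z) := by
    unfold F
    rw [tprod_one_add hs]
    have : (fun T : Finset (ℕ × ℕ) => z ^ e p q T) = fun T => ∏ x ∈ T, z ^ a p q x := by
      funext T
      rw [Finset.prod_pow_eq_pow_sum]; rfl
    rw [this]
    exact hs.hasSum
  have h2 := h1.tsum_fiberwise (e p q)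
  have h3 : (fun n : ℕ => (f p q n : ℂ) * z ^ n) =
      fun n : ℕ => ∑' b : (e p q ⁻¹' {n} : Set (Finset (ℕ × ℕ))), z ^ e p q b := by
    funext n
    have h4 : ∀ b : (e p q ⁻¹' {n} : Set (Finset (ℕ × ℕ))), z ^ e p q b = z ^ n := by
      rintro ⟨b, hb⟩
      have hb' : e p q b = n := hb
      rw [hb']
    rw [tsum_congr h4, tsum_const, nsmul_eq_mul, f_eq hp hq hc]
    rfl
  rw [h3]
  exact h2

end Pool.Agent.X10.SC
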