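import Mathlib
import Pool.Agent.X10.SC1

open Finset Filter Topology

namespace Pool.Agent.X10.SC

variable {p q : ℕ}

/-- the `p`-th roots of unity other than `±1` -/
noncomputable def J (p : ℕ) : Finset ℂ := (Polynomial.nthRootsFinset p (1 : ℂ)) \ {1, -1}

lemma mem_J (hp : 0 < p) {z : ℂ} : z ∈ J p ↔ z ^ p = 1 ∧ z ≠ 1 ∧ z ≠ -1 := by
  unfold J
  rw [Finset.mem_sdiff, Polynomial.mem_nthRootsFinset hp, Finset.mem_insert, Finset.mem_singleton,
    not_or]

lemma norm_of_mem_J (hp : 0 < p) {z : ℂ} (hz : z ∈ J p) : ‖z‖ = 1 :=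
  Complex.norm_eq_one_of_pow_eq_one ((mem_J hp).mp hz).1 hp.ne'

lemma prod_all (hp : 0 < p) (x : ℝ) :
    ∏ z ∈ Polynomial.nthRootsFinset p (1 : ℂ), ‖1 + z * x‖ = |1 - (-x) ^ p| := by
  have h1 := (Complex.isPrimitiveRoot_exp p hp.ne').pow_sub_pow_eq_prod_sub_mul 1 (-(x : ℂ)) hp
  have h2 : ∏ z ∈ Polynomial.nthRootsFinset p (1 : ℂ), ‖1 + z * x‖ =
      ‖∏ z ∈ Polynomial.nthRootsFinset p (1 : ℂ), (1 - z * (-(x : ℂ)))‖ := by
    rw [norm_prod]
    apply prod_congr rfl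
    intro z _
    congr 1
    ring
  rw [h2, ← h1, one_pow]
  have h3 : (1 : ℂ) - (-(x : ℂ)) ^ p = ((1 - (-x) ^ p : ℝ) : ℂ) := by push_cast; ring
  rw [h3, Complex.norm_real, Real.norm_eq_abs]

lemma P_ge (hp : 2 < p) {x : ℝ} (hx0 : 0 ≤ x) (hx1 : x < 1) :
    1 / 2 ≤ ∏ z ∈ J p, ‖1 + z * x‖ := by
  have h1 := prod_all (show 0 < p by omega) x
  rw [← prod_inter_mul_prod_sdiff _ {1, -1}] at h1
  have hone : (1 : ℂ) ∈ Polynomial.nthRootsFinset p (1 : ℂ) := by
    rw [Polynomial.mem_nthRootsFinset (by omega)]; simp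
  have e1 : ‖1 + (1 : ℂ) * x‖ = 1 + x := by
    have : 1 + (1 : ℂ) * x = ((1 + x : ℝ) : ℂ) := by push_cast; ring
    rw [this, Complex.norm_real, Real.norm_eq_abs, abs_of_nonneg (by linarith)]
  have e2 : ‖1 + (-1 : ℂ) * x‖ = 1 - x := by
    have : 1 + (-1 : ℂ) * x = ((1 - x : ℝ) : ℂ) := by push_cast; ring
    rw [this, Complex.norm_real, Real.norm_eq_abs, abs_of_nonneg (by linarith)]
  set P := ∏ z ∈ Polynomial.nthRootsFinset p (1 : ℂ) \ {1, -1}, ‖1 + z * x‖ with hP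
  have hPJ : ∏ z ∈ J p, ‖1 + z * x‖ = P := rfl
  rw [hPJ]
  rcases Nat.even_or_odd p with he | ho
  · have hm : (-1 : ℂ) ∈ Polynomial.nthRootsFinset p (1 : ℂ) := by
      rw [Polynomial.mem_nthRootsFinset (by omega), he.neg_one_pow]
    have hint : Polynomial.nthRootsFinset p (1 : ℂ) ∩ {1, -1} = {1, -1} := by
      apply inter_eq_right.mpr
      intro z hz
      rw [mem_insert, mem_singleton] at hz
      rcases hz with rfl | rfl
      · exact hone
      · exact hm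
    rw [hint, prod_pair (by norm_num), e1, e2, he.neg_pow] at h1
    have hxp : x ^ p ≤ x ^ 2 := pow_le_pow_of_le_one hx0 hx1.le (by omega)
    have hx2 : x ^ 2 < 1 := by nlinarith
    rw [abs_of_nonneg (by linarith)] at h1
    by_contra hcon
    push Not at hcon
    have h3 : 0 < (1 + x) * (1 - x) := by nlinarith
    nlinarith
  · have hm : (-1 : ℂ) ∉ Polynomial.nthRootsFinset p (1 : ℂ) := by
      rw [Polynomial.mem_nthRootsFinset (by omega), ho.neg_one_pow]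
      norm_num
    have hint : Polynomial.nthRootsFinset p (1 : ℂ) ∩ {1, -1} = {1} := by
      ext z
      rw [mem_inter, mem_insert, mem_singleton, mem_singleton]
      constructor
      · rintro ⟨h2, rfl | rfl⟩
        · rfl
        · exact absurd h2 hm
      · rintro rfl
        exact ⟨hone, Or.inl rfl⟩
    rw [hint, prod_singleton, e1, ho.neg_pow, sub_neg_eq_add] at h1
    have hxp : 0 ≤ x ^ p := by positivity
    rw [abs_of_nonneg (by linarith)] at h1
    by_contra hcon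
    push Not at hcon
    nlinarith

lemma card_J (hp : 2 < p) : 2 ≤ (J p).card := by
  have h1 : (Polynomial.nthRootsFinset p (1 : ℂ)).card = p :=
    (Complex.isPrimitiveRoot_exp p (by omega)).card_nthRootsFinset
  have h2 := Finset.card_sdiff_add_card_inter (Polynomial.nthRootsFinset p (1 : ℂ)) {1, -1}
  rw [h1] at h2
  have h3 : ((Polynomial.nthRootsFinset p (1 : ℂ)) ∩ {1, -1}).card ≤ 2 :=
    (card_le_card inter_subset_right).trans card_le_two
  show 2 ≤ ((Polynomial.nthRootsFinset p (1 : ℂ)) \ {1, -1}).card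
  rcases Nat.even_or_odd p with he | ho
  · obtain ⟨m, hm⟩ := he
    omega
  · have hm : (-1 : ℂ) ∉ Polynomial.nthRootsFinset p (1 : ℂ) := by
      rw [Polynomial.mem_nthRootsFinset (by omega), ho.neg_one_pow]
      norm_num
    have h4 : ((Polynomial.nthRootsFinset p (1 : ℂ)) ∩ {1, -1}) ⊆ {1} := by
      intro z hz
      rw [mem_inter, mem_insert, mem_singleton] at hz
      rcases hz with ⟨h5, rfl | rfl⟩
      · exact mem_singleton_self _
      · exact absurd h5 hm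
    have h5 := card_le_card h4
    rw [card_singleton] at h5
    omega

lemma pow_inj (hp : 0 < p) (hc : Nat.Coprime p q) {z w : ℂ} (hz : z ^ p = 1) (hw : w ^ p = 1)
    (h : z ^ q = w ^ q) : z = w := by
  have hw0 : w ≠ 0 := by
    rintro rfl
    rw [zero_pow hp.ne'] at hw
    exact zero_ne_one hw
  have h1 : (z / w) ^ p = 1 := by rw [div_pow, hz, hw, div_one]
  have h2 : (z / w) ^ q = 1 := by rw [div_pow, h, div_self (pow_ne_zero _ hw0)]
  have h3 : orderOf (z / w) ∣ Nat.gcd p q :=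
    Nat.dvd_gcd (orderOf_dvd_of_pow_eq_one h1) (orderOf_dvd_of_pow_eq_one h2)
  rw [hc.gcd_eq_one, Nat.dvd_one, orderOf_eq_one_iff] at h3
  rwa [div_eq_one_iff_eq hw0] at h3

lemma J_image (hp : 0 < p) (hc : Nat.Coprime p q) : (J p).image (fun z => z ^ q) = J p := by
  apply Finset.eq_of_subset_of_card_le
  · intro w hw
    obtain ⟨z, hz, rfl⟩ := mem_image.mp hw
    rw [mem_J hp] at hz ⊢
    obtain ⟨h1, h2, h3⟩ := hz
    have h4 : (z ^ q) ^ p = 1 := by rw [← pow_mul, mul_comm, pow_mul, h1, one_pow]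
    refine ⟨h4, ?_, ?_⟩
    · intro h5
      exact h2 (pow_inj hp hc h1 (one_pow p) (by rw [h5, one_pow]))
    · intro h5
      rw [h5] at h4
      have hpe : Even p := by
        by_contra hcon
        rw [Nat.not_even_iff_odd] at hcon
        rw [hcon.neg_one_pow] at h4
        norm_num at h4
      have hqo : Odd q := by
        rw [← Nat.not_even_iff_odd]
        intro hqe
        have h6 : 2 ∣ Nat.gcd p q := Nat.dvd_gcd hpe.two_dvd hqe.two_dvd
        rw [hc.gcd_eq_one] at h6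
        omega
      exact h3 (pow_inj hp hc h1 h4 (by rw [h5, hqo.neg_one_pow]))
  · rw [card_image_of_injOn]
    intro z hz w hw h
    exact pow_inj hp hc ((mem_J hp).mp hz).1 ((mem_J hp).mp hw).1 h

/-- product of `‖G(ζ r)‖` over `ζ ∈ J` -/
noncomputable def H (p q : ℕ) (r : ℝ) : ℝ := ∏ z ∈ J p, ‖G q (z * r)‖

lemma norm_mul_lt (hp : 0 < p) {z : ℂ} (hz : z ∈ J p) {r : ℝ} (hr0 : 0 ≤ r) (hr1 : r < 1) :
    ‖z * (r : ℂ)‖ < 1 := by
  rw [norm_mul, norm_of_mem_J hp hz, one_mul, Complex.norm_real, Real.norm_eq_abs,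
    abs_of_nonneg hr0]
  exact hr1

lemma H_step (hp : 2 < p) (hq : 1 < q) (hc : Nat.Coprime p q) {r : ℝ} (hr0 : 0 ≤ r) (hr1 : r < 1) :
    H p q (r ^ q) / 2 ≤ H p q r := by
  have h1 : H p q r = (∏ z ∈ J p, ‖1 + z * r‖) * ∏ z ∈ J p, ‖G q (z ^ q * ((r ^ q : ℝ) : ℂ))‖ := by
    unfold H
    rw [← prod_mul_distrib]
    apply prod_congr rfl
    intro z hz
    rw [G_fun hq (norm_mul_lt (by omega) hz hr0 hr1), norm_mul, mul_pow]
    push_cast
    rfl
  have h2 : ∏ z ∈ J p, ‖G q (z ^ q * ((r ^ q : ℝ) : ℂ))‖ = H p q (r ^ q) := by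
    unfold H
    conv_rhs => rw [← J_image (show 0 < p by omega) hc]
    rw [prod_image]
    intro z hz w hw h
    exact pow_inj (by omega) hc ((mem_J (by omega)).mp hz).1 ((mem_J (by omega)).mp hw).1 h
  rw [h1, h2]
  have h3 := P_ge hp hr0 hr1
  have h4 : 0 ≤ H p q (r ^ q) := by unfold H; positivity
  nlinarith

lemma H_iter (hp : 2 < p) (hq : 1 < q) (hc : Nat.Coprime p q) (k : ℕ) {r : ℝ} (hr0 : 0 ≤ r)
    (hr1 : r < 1) : H p q (r ^ (q ^ k)) / 2 ^ k ≤ H p q r := by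
  induction k generalizing r with
  | zero => simp
  | succ k ih =>
    have h1 := ih (r := r ^ q) (by positivity) (pow_lt_one₀ hr0 hr1 (by omega))
    have h2 := H_step hp hq hc hr0 hr1
    rw [← pow_mul, ← pow_succ'] at h1
    have h3 : H p q (r ^ q ^ (k + 1)) / 2 ^ (k + 1) = H p q (r ^ q ^ (k + 1)) / 2 ^ k / 2 := by
      rw [div_div, ← pow_succ (2 : ℝ) k]
    rw [h3]
    linarith

lemma G_iter (hq : 1 < q) (k : ℕ) {r : ℝ} (hr0 : 0 ≤ r) (hr1 : r < 1) :
    ‖G q (r : ℂ)‖ ≤ 2 ^ k * ‖G q ((r ^ (q ^ k) : ℝ) : ℂ)‖ := by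
  induction k generalizing r with
  | zero => simp
  | succ k ih =>
    have h1 := ih (r := r ^ q) (by positivity) (pow_lt_one₀ hr0 hr1 (by omega))
    rw [← pow_mul, ← pow_succ'] at h1
    have hn : ‖(r : ℂ)‖ < 1 := by
      rw [Complex.norm_real, Real.norm_eq_abs, abs_of_nonneg hr0]; exact hr1
    rw [G_fun hq hn, norm_mul]
    have h2 : ‖1 + (r : ℂ)‖ ≤ 2 := by
      calc ‖1 + (r : ℂ)‖ ≤ ‖(1 : ℂ)‖ + ‖(r : ℂ)‖ := norm_add_le _ _
        _ ≤ 2 := by rw [norm_one]; linarith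
    have h3 : (r : ℂ) ^ q = ((r ^ q : ℝ) : ℂ) := by push_cast; rfl
    rw [h3]
    calc ‖1 + (r : ℂ)‖ * ‖G q ((r ^ q : ℝ) : ℂ)‖ ≤ 2 * (2 ^ k * ‖G q ((r ^ q ^ (k + 1) : ℝ) : ℂ)‖) :=
          mul_le_mul h2 h1 (norm_nonneg _) (by norm_num)
      _ = 2 ^ (k + 1) * ‖G q ((r ^ q ^ (k + 1) : ℝ) : ℂ)‖ := by ring

end Pool.Agent.X10.SC
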