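import Mathlib

open ComplexConjugate Matrix InnerProductSpace
open scoped ComplexOrder Topology

namespace Pool.Agent.X10.MC

/-- A kernel on `X`. -/
def IsKernel {X : Type} (K : X → X → ℂ) : Prop := Matrix.PosSemidef (Matrix.of K)

variable {X : Type}

theorem inner_self' {H : Type*} [NormedAddCommGroup H] [InnerProductSpace ℂ H] (v : H) :
    ⟪v, v⟫_ℂ = ((‖v‖ ^ 2 : ℝ) : ℂ) := by
  rw [inner_self_eq_norm_sq_to_K]
  push_cast
  rfl

theorem gram {H : Type*} [NormedAddCommGroup H] [InnerProductSpace ℂ H] (v : X → H) :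
    IsKernel fun z w => ⟪v z, v w⟫_ℂ := by
  refine ⟨?_, fun c => ?_⟩
  · ext z w
    simp
  · have h : (c.sum fun i xi => c.sum fun j xj => star xi *
        (Matrix.of fun z w => ⟪v z, v w⟫_ℂ) i j * xj) =
        ⟪∑ i ∈ c.support, c i • v i, ∑ j ∈ c.support, c j • v j⟫_ℂ := by
      rw [sum_inner]
      simp only [Finsupp.sum, inner_sum, inner_smul_left, inner_smul_right, of_apply,
        RCLike.star_def]
      refine Finset.sum_congr rfl fun i _ => Finset.sum_congr rfl fun j _ => by ring
    rw [h, inner_self']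
    exact Complex.zero_le_real.2 (sq_nonneg _)

theorem exists_gram {K : X → X → ℂ} (hK : IsKernel K) :
    ∃ (H : Type) (_ : NormedAddCommGroup H) (_ : InnerProductSpace ℂ H) (_ : CompleteSpace H)
      (g : X → H), ∀ z w, K z w = ⟪g z, g w⟫_ℂ := by
  let K' : Matrix X X (ℂ →L[ℂ] ℂ) := Matrix.of fun x y => K x y • (1 : ℂ →L[ℂ] ℂ)
  have hherm : ∀ z w, conj (K z w) = K w z := fun z w => by
    have := congrFun (congrFun hK.1 w) z
    simpa using this
  have hK' : K'.PosSemidef := by
    refine ((RKHS.posSemidef_tfae (𝕜 := ℂ) (V := ℂ) (K := K')).out 0 2).2 (And.intro ?_ fun vv => ?_)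
    · ext x y
      simp [K', hherm]
    · have h := hK.2 vv
      have h2 : (vv.sum fun x w => vv.sum fun x' w' => ⟪K' x' x w, w'⟫_ℂ) =
          vv.sum fun i xi => vv.sum fun j xj => star xi * (Matrix.of K) i j * xj := by
        refine Finsupp.sum_congr fun i _ => Finsupp.sum_congr fun j _ => ?_
        simp only [K', of_apply, _root_.smul_apply, one_apply_eq_self,
          smul_eq_mul, RCLike.inner_apply, map_mul, hherm, RCLike.star_def]
        ring
      rw [h2]
      exact (RCLike.nonneg_iff.1 h).1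
  have : Fact K'.PosSemidef := ⟨hK'⟩
  refine ⟨RKHS.OfKernel K', inferInstance, inferInstance, inferInstance,
    fun x => RKHS.kerFun (RKHS.OfKernel K') x (1 : ℂ), fun z w => ?_⟩
  rw [← RKHS.kernel_inner, RKHS.OfKernel.kernel_ofKernel]
  simp [K', hherm]

theorem IsKernel.add {K L : X → X → ℂ} (hK : IsKernel K) (hL : IsKernel L) :
    IsKernel fun z w => K z w + L z w := Matrix.PosSemidef.add hK hL

theorem IsKernel.mul {K L : X → X → ℂ} (hK : IsKernel K) (hL : IsKernel L) :
    IsKernel fun z w => K z w * L z w := Matrix.PosSemidef.hadamard hK hL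

theorem rankOne (f : X → ℂ) : IsKernel fun z w => conj (f z) * f w := by
  have := gram f
  simpa [mul_comm] using this

theorem rankOne' (f : X → ℂ) : IsKernel fun z w => f z * conj (f w) := by
  have := rankOne fun x => conj (f x)
  simpa using this

theorem const {c : ℝ} (hc : 0 ≤ c) : IsKernel (X := X) fun _ _ => (c : ℂ) := by
  have := rankOne (X := X) fun _ => (Real.sqrt c : ℂ)
  convert this using 3
  rw [Complex.conj_ofReal, ← Complex.ofReal_mul, Real.mul_self_sqrt hc]

theorem IsKernel.congr {K L : X → X → ℂ} (hK : IsKernel K) (h : ∀ z w, K z w = L z w) :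
    IsKernel L := by
  have : K = L := funext fun z => funext fun w => h z w
  rwa [← this]

theorem IsKernel.herm {K : X → X → ℂ} (hK : IsKernel K) (z w : X) : conj (K z w) = K w z := by
  obtain ⟨H, _, _, _, g, hg⟩ := exists_gram hK
  rw [hg, hg, inner_conj_symm]

/-- the kernel based at the point `o` -/
theorem IsKernel.diff {F : X → X → ℂ} (hF : IsKernel F) (o : X) :
    IsKernel fun z w => F z w - F z o - F o w + F o o := by
  obtain ⟨H, _, _, _, g, hg⟩ := exists_gram hF
  refine (gram fun z => g z - g o).congr fun z w => ?_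
  rw [inner_sub_left, inner_sub_right, inner_sub_right, hg, hg, hg, hg]
  ring

theorem IsKernel.pow {K : X → X → ℂ} (hK : IsKernel K) (n : ℕ) :
    IsKernel fun z w => K z w ^ n := by
  induction n with
  | zero => simpa using const (X := X) zero_le_one
  | succ n ih => exact (ih.mul hK).congr fun z w => by rw [pow_succ]

theorem IsKernel.diag {K : X → X → ℂ} (hK : IsKernel K) (x : X) :
    0 ≤ (K x x).re ∧ K x x = ((K x x).re : ℂ) := by
  obtain ⟨H, _, _, _, g, hg⟩ := exists_gram hK
  rw [hg, inner_self', Complex.ofReal_re]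
  exact ⟨sq_nonneg _, rfl⟩

theorem IsKernel.norm_le {K : X → X → ℂ} (hK : IsKernel K) (z w : X) :
    ‖K z w‖ ^ 2 ≤ (K z z).re * (K w w).re := by
  obtain ⟨H, _, _, _, g, hg⟩ := exists_gram hK
  rw [hg, hg z z, hg w w, inner_self', inner_self', Complex.ofReal_re, Complex.ofReal_re,
    ← mul_pow]
  exact pow_le_pow_left₀ (norm_nonneg _) (norm_inner_le_norm _ _) 2

theorem IsKernel.norm_lt {K : X → X → ℂ} (hK : IsKernel K) (h1 : ∀ x, (K x x).re < 1) (z w : X) :
    ‖K z w‖ < 1 := by
  have h := hK.norm_le z w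
  have h2 : (K z z).re * (K w w).re < 1 := by
    have := (hK.diag z).1
    have := (hK.diag w).1
    nlinarith [h1 z, h1 w]
  nlinarith [norm_nonneg (K z w)]

theorem IsKernel.ne_one {K : X → X → ℂ} (hK : IsKernel K) (h1 : ∀ x, (K x x).re < 1) (z w : X) :
    1 - K z w ≠ 0 := by
  intro h
  have h2 := hK.norm_lt h1 z w
  have : K z w = 1 := by linear_combination -h
  rw [this] at h2
  simp at h2

/-- the Neumann series -/
theorem IsKernel.geom {K : X → X → ℂ} (hK : IsKernel K) (h1 : ∀ x, (K x x).re < 1) :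
    IsKernel fun z w => (1 - K z w)⁻¹ := by
  have hs : ∀ z w, HasSum (fun n : ℕ => K z w ^ n) (1 - K z w)⁻¹ := fun z w =>
    hasSum_geometric_of_norm_lt_one (hK.norm_lt h1 z w)
  refine ⟨?_, fun c => ?_⟩
  · ext z w
    simp [hK.herm]
  · have h : HasSum (fun n : ℕ => c.sum fun i xi => c.sum fun j xj => star xi *
        (Matrix.of fun z w => K z w ^ n) i j * xj)
        (c.sum fun i xi => c.sum fun j xj => star xi *
        (Matrix.of fun z w => (1 - K z w)⁻¹) i j * xj) := by
      simp only [Finsupp.sum]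
      refine hasSum_sum fun i _ => hasSum_sum fun j _ => ?_
      exact ((hs i j).mul_left _).mul_right _
    exact h.nonneg fun n => (hK.pow n).2 c

end Pool.Agent.X10.MC
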