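import Pool.Agent.X10.MC1

open ComplexConjugate Matrix InnerProductSpace
open scoped ComplexOrder Topology

namespace Pool.Agent.X10.MC

variable {X : Type}

/-- Douglas' lemma for kernels -/
theorem exists_vec {E : Type} [NormedAddCommGroup E] [InnerProductSpace ℂ E] [CompleteSpace E]
    (κ : X → E) (f : X → ℂ) (h : IsKernel fun z w => ⟪κ z, κ w⟫_ℂ - conj (f z) * f w) :
    ∃ F : E, ‖F‖ ≤ 1 ∧ ∀ w, ⟪F, κ w⟫_ℂ = f w := by
  set T := Finsupp.linearCombination ℂ κ with hT
  set S := Finsupp.linearCombination ℂ f with hS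
  have hle : ∀ c, ‖S c‖ ≤ ‖T c‖ := by
    intro c
    have h1 := h.2 c
    have h2 : (c.sum fun i xi => c.sum fun j xj => star xi *
        (Matrix.of fun z w => ⟪κ z, κ w⟫_ℂ - conj (f z) * f w) i j * xj) =
        ((‖T c‖ ^ 2 - ‖S c‖ ^ 2 : ℝ) : ℂ) := by
      rw [Complex.ofReal_sub, ← inner_self', Complex.ofReal_pow, ← Complex.conj_mul', hT, hS,
        Finsupp.linearCombination_apply, Finsupp.linearCombination_apply]
      simp only [Finsupp.sum]
      rw [sum_inner, map_sum, Finset.sum_mul, ← Finset.sum_sub_distrib]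
      refine Finset.sum_congr rfl fun i _ => ?_
      rw [inner_sum, Finset.mul_sum, ← Finset.sum_sub_distrib]
      refine Finset.sum_congr rfl fun j _ => ?_
      simp only [inner_smul_left, inner_smul_right, of_apply, RCLike.star_def, smul_eq_mul,
        map_mul]
      ring
    rw [h2, Complex.zero_le_real] at h1
    exact (sq_le_sq₀ (norm_nonneg _) (norm_nonneg _)).1 (by linarith)
  have hker : LinearMap.ker T ≤ LinearMap.ker S := by
    intro c hc
    rw [LinearMap.mem_ker] at hc ⊢
    have := hle c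
    rw [hc, norm_zero] at this
    exact norm_le_zero_iff.1 this
  let φ : LinearMap.range T →ₗ[ℂ] ℂ :=
    ((LinearMap.ker T).liftQ S hker) ∘ₗ (T.quotKerEquivRange.symm : LinearMap.range T →ₗ[ℂ] _)
  have hφ : ∀ c, φ ⟨T c, LinearMap.mem_range_self T c⟩ = S c := by
    intro c
    simp only [φ, LinearMap.comp_apply, LinearEquiv.coe_coe]
    rw [LinearMap.quotKerEquivRange_symm_apply_image]
    simp
  have hb : ∀ y, ‖φ y‖ ≤ 1 * ‖y‖ := by
    rintro ⟨_, c, rfl⟩
    rw [hφ, one_mul]
    exact hle c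
  obtain ⟨G, hG, hGn⟩ := exists_extension_norm_eq (LinearMap.range T) (φ.mkContinuous 1 hb)
  refine ⟨(InnerProductSpace.toDual ℂ E).symm G, ?_, fun w => ?_⟩
  · rw [LinearIsometryEquiv.norm_map, hGn]
    exact LinearMap.mkContinuous_norm_le _ zero_le_one _
  · rw [InnerProductSpace.toDual_symm_apply]
    have h1 : κ w = T (Finsupp.single w 1) := by simp [hT]
    rw [h1, hG ⟨T _, LinearMap.mem_range_self T _⟩]
    change φ _ = _
    rw [hφ]
    simp [hS]

end Pool.Agent.X10.MC
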