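import Pool.Agent.X10.MC2

open ComplexConjugate Matrix InnerProductSpace Filter
open scoped ComplexOrder Topology

namespace Pool.Agent.X10.MC

variable {H : Type} [NormedAddCommGroup H] [InnerProductSpace ℂ H]

/-- Parseval's identity for the roots of unity -/
theorem parseval {M : ℕ} (hM : 0 < M) {ω : ℂ} (hω : IsPrimitiveRoot ω M) (v : ℕ → H) :
    ∑ k ∈ Finset.range M, ‖∑ n ∈ Finset.range M, (ω ^ k) ^ n • v n‖ ^ 2 =
      M * ∑ n ∈ Finset.range M, ‖v n‖ ^ 2 := by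
  have hn : ‖ω‖ = 1 := hω.norm'_eq_one hM.ne'
  have hω0 : ω ≠ 0 := by
    intro h
    rw [h, norm_zero] at hn
    exact zero_ne_one hn
  have hc : conj ω = ω⁻¹ := by
    rw [Complex.inv_def, Complex.normSq_eq_norm_sq, hn]
    simp
  have key : ∀ m < M, ∀ n < M, ∑ k ∈ Finset.range M, conj ((ω ^ k) ^ m) * (ω ^ k) ^ n =
      if m = n then (M : ℂ) else 0 := by
    intro m hm n hn'
    have h1 : ∀ k ∈ Finset.range M, conj ((ω ^ k) ^ m) * (ω ^ k) ^ n = (ω ^ n / ω ^ m) ^ k := by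
      intro k _
      rw [map_pow, map_pow, hc, inv_pow, inv_pow, div_pow, ← pow_mul, ← pow_mul, ← pow_mul,
        ← pow_mul, mul_comm k m, mul_comm k n]
      field_simp
    rw [Finset.sum_congr rfl h1]
    split_ifs with h
    · rw [h, div_self (pow_ne_zero _ hω0)]
      simp
    · have h2 : ω ^ n / ω ^ m ≠ 1 := by
        intro h3
        rw [div_eq_one_iff_eq (pow_ne_zero _ hω0)] at h3
        exact h (hω.pow_inj hm hn' h3.symm)
      have h4 : (ω ^ n / ω ^ m) ^ M = 1 := by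
        rw [div_pow, ← pow_mul, ← pow_mul, mul_comm n, mul_comm m, pow_mul, pow_mul, hω.pow_eq_one]
        simp
      rw [geom_sum_eq h2, h4, sub_self, zero_div]
  have h5 : ((∑ k ∈ Finset.range M, ‖∑ n ∈ Finset.range M, (ω ^ k) ^ n • v n‖ ^ 2 : ℝ) : ℂ) =
      ((M * ∑ n ∈ Finset.range M, ‖v n‖ ^ 2 : ℝ) : ℂ) := by
    push_cast
    have h6 : ∀ k ∈ Finset.range M, ((‖∑ n ∈ Finset.range M, (ω ^ k) ^ n • v n‖ : ℝ) : ℂ) ^ 2 =
        ∑ m ∈ Finset.range M, ∑ n ∈ Finset.range M,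
          (conj ((ω ^ k) ^ m) * (ω ^ k) ^ n) * ⟪v m, v n⟫_ℂ := by
      intro k _
      rw [← Complex.ofReal_pow, ← inner_self', sum_inner]
      refine Finset.sum_congr rfl fun m _ => ?_
      rw [inner_sum]
      refine Finset.sum_congr rfl fun n _ => ?_
      rw [inner_smul_left, inner_smul_right]
      ring
    rw [Finset.sum_congr rfl h6, Finset.sum_comm]
    have h7 : ∀ m ∈ Finset.range M, ∑ k ∈ Finset.range M, ∑ n ∈ Finset.range M,
        (conj ((ω ^ k) ^ m) * (ω ^ k) ^ n) * ⟪v m, v n⟫_ℂ = M * ((‖v m‖ : ℝ) : ℂ) ^ 2 := by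
      intro m hm
      rw [Finset.sum_comm]
      have h8 : ∀ n ∈ Finset.range M, ∑ k ∈ Finset.range M,
          (conj ((ω ^ k) ^ m) * (ω ^ k) ^ n) * ⟪v m, v n⟫_ℂ =
          if m = n then (M : ℂ) * ⟪v m, v n⟫_ℂ else 0 := by
        intro n hn'
        rw [← Finset.sum_mul, key m (Finset.mem_range.1 hm) n (Finset.mem_range.1 hn')]
        split_ifs <;> simp
      rw [Finset.sum_congr rfl h8, Finset.sum_ite_eq, if_pos hm, inner_self', Complex.ofReal_pow]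
    rw [Finset.sum_congr rfl h7, Finset.mul_sum]
  exact_mod_cast h5

theorem avg {M : ℕ} (hM : 0 < M) (v : ℕ → H) {c : ℝ}
    (h : ∀ z : ℂ, ‖z‖ = 1 → c ≤ ‖∑ n ∈ Finset.range M, z ^ n • v n‖ ^ 2) :
    c ≤ ∑ n ∈ Finset.range M, ‖v n‖ ^ 2 := by
  have hω := Complex.isPrimitiveRoot_exp M hM.ne'
  set ω := Complex.exp (2 * Real.pi * Complex.I / M)
  have h1 : ∑ k ∈ Finset.range M, c ≤
      ∑ k ∈ Finset.range M, ‖∑ n ∈ Finset.range M, (ω ^ k) ^ n • v n‖ ^ 2 := by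
    refine Finset.sum_le_sum fun k _ => h _ ?_
    rw [norm_pow, hω.norm'_eq_one hM.ne', one_pow]
  rw [parseval hM hω, Finset.sum_const, Finset.card_range, nsmul_eq_mul] at h1
  exact le_of_mul_le_mul_left h1 (by exact_mod_cast hM)

/-- the coefficient -/
noncomputable def cf (n : ℕ) (w : ℂ) : ℂ := (Real.sqrt (n + 1) : ℂ) * w ^ n

theorem norm_cf (n : ℕ) (w : ℂ) : ‖cf n w‖ = Real.sqrt (n + 1) * ‖w‖ ^ n := by
  unfold cf
  rw [norm_mul, norm_pow, Complex.norm_real, Real.norm_of_nonneg (Real.sqrt_nonneg _)]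

theorem summable_sq {ρ : ℝ} (h0 : 0 ≤ ρ) (h1 : ρ < 1) :
    Summable fun n : ℕ => ((n : ℝ) + 1) * ρ ^ n := by
  have h2 : ‖ρ‖ < 1 := by rwa [Real.norm_of_nonneg h0]
  have h3 := summable_pow_mul_geometric_of_norm_lt_one 1 h2
  have h4 := summable_geometric_of_lt_one h0 h1
  refine (h3.add h4).congr fun n => by ring

theorem sqrt_le (n : ℕ) : Real.sqrt ((n : ℝ) + 1) ≤ n + 1 := by
  have h : (0 : ℝ) ≤ n := Nat.cast_nonneg n
  rw [Real.sqrt_le_left (by linarith)]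
  nlinarith

theorem summable_norm {F : ℕ → H} (hF : ∀ n, ‖F n‖ ≤ 1) {w : ℂ} (hw : ‖w‖ < 1) :
    Summable fun n => ‖cf n w • F n‖ := by
  refine Summable.of_nonneg_of_le (fun n => norm_nonneg _) (fun n => ?_)
    (summable_sq (norm_nonneg w) hw)
  rw [norm_smul, norm_cf]
  have h1 := sqrt_le n
  have h2 : (0 : ℝ) ≤ ‖w‖ ^ n := by positivity
  have h3 : (0 : ℝ) ≤ Real.sqrt ((n : ℝ) + 1) := Real.sqrt_nonneg _
  calc Real.sqrt (n + 1) * ‖w‖ ^ n * ‖F n‖ ≤ Real.sqrt (n + 1) * ‖w‖ ^ n * 1 := by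
        gcongr
        exact hF n
    _ ≤ (n + 1) * ‖w‖ ^ n := by
        rw [mul_one]
        gcongr

variable [CompleteSpace H]

theorem lower {F : ℕ → H} (hF : ∀ n, ‖F n‖ ≤ 1) {ρ : ℝ} (h0 : 0 ≤ ρ) (h1 : ρ < 1) {a : ℝ}
    (ha : 0 ≤ a) (hA : ∀ w : ℂ, ‖w‖ = ρ → a ≤ ‖∑' n, cf n w • F n‖)
    (hs : Summable fun n : ℕ => ((n : ℝ) + 1) * ρ ^ (2 * n) * ‖F n‖ ^ 2) :
    a ^ 2 ≤ ∑' n : ℕ, ((n : ℝ) + 1) * ρ ^ (2 * n) * ‖F n‖ ^ 2 := by
  have hsum : Summable fun n => ‖cf n (ρ : ℂ) • F n‖ :=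
    summable_norm hF (by rwa [Complex.norm_real, Real.norm_of_nonneg h0])
  set τ : ℕ → ℝ := fun M => ∑' n, ‖cf (n + M) (ρ : ℂ) • F (n + M)‖ with hτ
  have hτ0 : Tendsto τ atTop (𝓝 0) :=
    tendsto_sum_nat_add fun n => ‖cf n (ρ : ℂ) • F n‖
  have hlim : Tendsto (fun M => (a - τ M) ^ 2) atTop (𝓝 ((a - 0) ^ 2)) :=
    (tendsto_const_nhds.sub hτ0).pow 2
  rw [sub_zero] at hlim
  rcases ha.eq_or_lt with rfl | ha'
  · rw [zero_pow two_ne_zero]
    exact tsum_nonneg fun n => by positivity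
  have hev : ∀ᶠ M in atTop, (a - τ M) ^ 2 ≤
      ∑' n : ℕ, ((n : ℝ) + 1) * ρ ^ (2 * n) * ‖F n‖ ^ 2 := by
    filter_upwards [hτ0.eventually (gt_mem_nhds ha'), eventually_gt_atTop 0] with M hM hM0
    have h2 : (a - τ M) ^ 2 ≤ ∑ n ∈ Finset.range M, ‖cf n (ρ : ℂ) • F n‖ ^ 2 := by
      refine avg hM0 _ fun z hz => ?_
      have h3 := hA (z * ρ) (by rw [norm_mul, hz, Complex.norm_real, Real.norm_of_nonneg h0, one_mul])
      have hsz : Summable fun n => ‖cf n (z * ρ) • F n‖ :=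
        summable_norm hF (by rwa [norm_mul, hz, Complex.norm_real, Real.norm_of_nonneg h0, one_mul])
      have h4 : ∀ n, cf n (z * ρ) • F n = z ^ n • (cf n (ρ : ℂ) • F n) := by
        intro n
        rw [smul_smul]
        congr 1
        unfold cf
        rw [mul_pow]
        ring
      have h5 : ‖∑' n, cf n (z * ρ) • F n‖ ≤
          ‖∑ n ∈ Finset.range M, z ^ n • (cf n (ρ : ℂ) • F n)‖ + τ M := by
        rw [← hsz.of_norm.sum_add_tsum_nat_add M]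
        refine (norm_add_le _ _).trans (add_le_add ?_ ?_)
        · simp only [h4, le_refl]
        · have h8 : Summable fun n => ‖cf (n + M) (z * ρ) • F (n + M)‖ :=
            (summable_nat_add_iff (f := fun n => ‖cf n (z * ρ) • F n‖) M).2 hsz
          refine (norm_tsum_le_tsum_norm h8).trans ?_
          refine le_of_eq (tsum_congr fun n => ?_)
          rw [h4, norm_smul, norm_pow, hz, one_pow, one_mul]
      have h6 : a - τ M ≤ ‖∑ n ∈ Finset.range M, z ^ n • (cf n (ρ : ℂ) • F n)‖ := by linarith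
      exact pow_le_pow_left₀ (by linarith) h6 2
    refine h2.trans ?_
    have h7 : ∀ n, ‖cf n (ρ : ℂ) • F n‖ ^ 2 = ((n : ℝ) + 1) * ρ ^ (2 * n) * ‖F n‖ ^ 2 := by
      intro n
      rw [norm_smul, norm_cf, Complex.norm_real, Real.norm_of_nonneg h0, mul_pow, mul_pow,
        Real.sq_sqrt (by positivity), ← pow_mul, mul_comm n 2]
    simp only [h7]
    exact hs.sum_le_tsum _ fun n _ => by positivity
  exact le_of_tendsto hlim hev

theorem coef_le (n : ℕ) (hn : 2 ≤ n) : ((n : ℝ) + 1) * (1 / 2) ^ n ≤ 3 / 4 := by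
  induction n, hn using Nat.le_induction with
  | base => norm_num
  | succ n hn ih =>
    have h2 : (2 : ℝ) ≤ n := by exact_mod_cast hn
    have h3 : (0 : ℝ) ≤ (1 / 2) ^ n := by positivity
    rw [pow_succ]
    push_cast
    nlinarith

/-- the equality case -/
theorem equality {F : ℕ → H} (hs : Summable fun n => ‖F n‖ ^ 2) (h1 : ∑' n, ‖F n‖ ^ 2 ≤ 1)
    (hA : ∀ w : ℂ, ‖w‖ ^ 2 < 1 / 2 → Real.sqrt 2 * ‖w‖ ≤ ‖∑' n, cf n w • F n‖) :
    (∀ n, 2 ≤ n → F n = 0) ∧ ‖F 0‖ ^ 2 + ‖F 1‖ ^ 2 = 1 := by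
  have hF : ∀ n, ‖F n‖ ≤ 1 := by
    intro n
    have h2 : ‖F n‖ ^ 2 ≤ 1 := (hs.le_tsum n fun m _ => sq_nonneg _).trans h1
    nlinarith [norm_nonneg (F n)]
  have hs2 : Summable fun n : ℕ => ((n : ℝ) + 1) * (1 / 2) ^ n * ‖F n‖ ^ 2 := by
    refine Summable.of_nonneg_of_le (fun n => by positivity) (fun n => ?_)
      (summable_sq (ρ := 1 / 2) (by norm_num) (by norm_num))
    have h2 : ‖F n‖ ^ 2 ≤ 1 := pow_le_one₀ (norm_nonneg _) (hF n)
    have h3 : (0 : ℝ) ≤ ((n : ℝ) + 1) * (1 / 2) ^ n := by positivity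
    nlinarith
  -- the sum is at least one
  have h2 : (1 : ℝ) ≤ ∑' n : ℕ, ((n : ℝ) + 1) * (1 / 2) ^ n * ‖F n‖ ^ 2 := by
    refine le_of_forall_lt_imp_le_of_dense fun c hc => ?_
    rcases lt_or_ge c 0 with hc0 | hc0
    · exact hc0.le.trans (tsum_nonneg fun n => by positivity)
    set ρ := Real.sqrt (c / 2) with hρ
    have hρ2 : ρ ^ 2 = c / 2 := Real.sq_sqrt (by linarith)
    have hρ0 : 0 ≤ ρ := Real.sqrt_nonneg _
    have hρ1 : ρ < 1 := by nlinarith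
    have hle : ∀ n : ℕ, ((n : ℝ) + 1) * ρ ^ (2 * n) * ‖F n‖ ^ 2 ≤
        ((n : ℝ) + 1) * (1 / 2) ^ n * ‖F n‖ ^ 2 := by
      intro n
      rw [pow_mul, hρ2]
      gcongr
    have hs3 : Summable fun n : ℕ => ((n : ℝ) + 1) * ρ ^ (2 * n) * ‖F n‖ ^ 2 :=
      Summable.of_nonneg_of_le (fun n => by positivity) hle hs2
    have h3 := lower hF hρ0 hρ1 (a := Real.sqrt 2 * ρ) (by positivity)
      (fun w hw => by rw [← hw]; exact hA w (by rw [hw, hρ2]; linarith)) hs3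
    rw [mul_pow, Real.sq_sqrt (by norm_num), hρ2] at h3
    calc c = 2 * (c / 2) := by ring
      _ ≤ _ := h3
      _ ≤ _ := hs3.tsum_le_tsum hle hs2
  have hs4 := (summable_nat_add_iff 2).2 hs
  have hs5 := (summable_nat_add_iff 2).2 hs2
  rw [← hs2.sum_add_tsum_nat_add 2] at h2
  rw [← hs.sum_add_tsum_nat_add 2] at h1
  simp only [Finset.sum_range_succ, Finset.sum_range_zero, zero_add] at h1 h2
  have h3 : ∑' n, (((n + 2 : ℕ) : ℝ) + 1) * (1 / 2) ^ (n + 2) * ‖F (n + 2)‖ ^ 2 ≤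
      ∑' n, 3 / 4 * ‖F (n + 2)‖ ^ 2 := by
    refine hs5.tsum_le_tsum (fun n => ?_) (hs4.mul_left _)
    exact mul_le_mul_of_nonneg_right (coef_le _ (by omega)) (sq_nonneg _)
  rw [tsum_mul_left] at h3
  have h4 : 0 ≤ ∑' n, ‖F (n + 2)‖ ^ 2 := tsum_nonneg fun n => sq_nonneg _
  norm_num at h2
  norm_num at h3
  have h5 : ∑' n, ‖F (n + 2)‖ ^ 2 = 0 := by linarith
  refine ⟨fun n hn => ?_, by linarith⟩
  obtain ⟨m, rfl⟩ : ∃ m, n = m + 2 := ⟨n - 2, by omega⟩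
  have h6 := (hs4.hasSum_iff.2 h5)
  have h7 := (hasSum_zero_iff_of_nonneg fun n => sq_nonneg (‖F (n + 2)‖)).1 h6
  have h8 := congrFun h7 m
  simpa using h8

end Pool.Agent.X10.MC
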