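import Pool.Agent.X10.MC3

open ComplexConjugate Matrix InnerProductSpace Filter
open scoped ComplexOrder Topology

namespace Pool.Agent.X10.MC

variable {X : Type}

theorem IsKernel.rebase {F : X → X → ℂ} (hF : IsKernel F) (o : X) (h1 : (F o o).re < 1)
    (h2 : ∀ z, 1 - F z o ≠ 0) :
    IsKernel fun z w => 1 - (1 - F z w) * (1 - F o o) / ((1 - F z o) * (1 - F o w)) := by
  obtain ⟨h3, h4⟩ := hF.diag o
  have h5 : ∀ w, conj (F w o) = F o w := fun w => hF.herm w o
  have h6 : ∀ w, 1 - F o w ≠ 0 := fun w h => h2 w (by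
    have := congrArg conj h
    rw [map_sub, map_one, hF.herm] at this
    simpa using this)
  have k1 := ((const (X := X) (c := 1 - (F o o).re) (by linarith)).mul (hF.diff o)).add
    (rankOne' fun z => F z o - F o o)
  have k2 := k1.mul (rankOne' fun z => (1 - F z o)⁻¹)
  refine k2.congr fun z w => ?_
  rw [map_inv₀, map_sub, map_sub, map_one, h5, hF.herm, Complex.ofReal_sub, ← h4]
  have := h2 z
  have := h6 w
  push_cast
  field_simp
  ring

theorem re_div_pos {a b c : ℝ} (ha : 0 < a) (hb : 0 < b) (hc : 0 < c) :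
    0 < ((a : ℂ) * b / c).re := by
  rw [← Complex.ofReal_mul, ← Complex.ofReal_div, Complex.ofReal_re]
  positivity

/-- the Hilbert space argument -/
theorem core {pt : X → ℂ} (hpt : ∀ x, ‖pt x‖ ^ 2 < 1 / 2)
    (hsurj : ∀ z : ℂ, ‖z‖ ^ 2 < 1 / 2 → ∃ x, pt x = z)
    {G : X → X → ℂ} (hG : IsKernel G) (hG1 : ∀ x, (G x x).re < 1)
    (hb : IsKernel fun z w => ((1 - pt z * conj (pt w)) ^ 2)⁻¹ * G z w - 2 * (pt z * conj (pt w))) :
    IsKernel fun z w => (1 - 2 * (pt z * conj (pt w))) / (1 - G z w) := by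
  obtain ⟨H, _, _, _, g, hg⟩ := exists_gram hG
  have hpt1 : ∀ x, ‖pt x‖ < 1 := fun x => by nlinarith [hpt x, norm_nonneg (pt x)]
  have hgn : ∀ x, ‖g x‖ < 1 := by
    intro x
    have h := hG1 x
    rw [hg, inner_self', Complex.ofReal_re] at h
    nlinarith [norm_nonneg (g x)]
  have hmem : ∀ x, Memℓp (fun n : ℕ => cf n (conj (pt x)) • g x) 2 := by
    intro x
    refine memℓp_gen ?_
    have h2 : ‖pt x‖ ^ 2 < 1 := by nlinarith [hpt x]
    refine Summable.of_nonneg_of_le (fun n => by positivity) (fun n => ?_)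
      (summable_sq (sq_nonneg ‖pt x‖) h2)
    have h3 : (2 : ENNReal).toReal = ((2 : ℕ) : ℝ) := by simp
    rw [h3, Real.rpow_natCast, norm_smul, norm_cf, mul_pow, mul_pow, Real.sq_sqrt (by positivity),
      RCLike.norm_conj, ← pow_mul, ← pow_mul, mul_comm n 2]
    have h4 : ‖g x‖ ^ 2 ≤ 1 := pow_le_one₀ (norm_nonneg _) (hgn x).le
    have h5 : (0 : ℝ) ≤ ((n : ℝ) + 1) * ‖pt x‖ ^ (2 * n) := by positivity
    nlinarith
  let κ : X → lp (fun _ : ℕ => H) 2 := fun x => ⟨fun n => cf n (conj (pt x)) • g x, hmem x⟩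
  have hκ : ∀ x n, (κ x : ∀ _ : ℕ, H) n = cf n (conj (pt x)) • g x := fun x n => rfl
  have hκi : ∀ z w, ⟪κ z, κ w⟫_ℂ = ((1 - pt z * conj (pt w)) ^ 2)⁻¹ * G z w := by
    intro z w
    rw [lp.inner_eq_tsum]
    have hu : ‖pt z * conj (pt w)‖ < 1 := by
      rw [norm_mul, RCLike.norm_conj]
      nlinarith [hpt1 z, hpt1 w, norm_nonneg (pt z), norm_nonneg (pt w)]
    have h1 := (hasSum_coe_mul_geometric_of_norm_lt_one hu).add
      (hasSum_geometric_of_norm_lt_one hu)
    have hne : 1 - pt z * conj (pt w) ≠ 0 := by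
      intro h
      have : pt z * conj (pt w) = 1 := by linear_combination -h
      rw [this, norm_one] at hu
      exact lt_irrefl _ hu
    have h2 : pt z * conj (pt w) / (1 - pt z * conj (pt w)) ^ 2 + (1 - pt z * conj (pt w))⁻¹ =
        ((1 - pt z * conj (pt w)) ^ 2)⁻¹ := by
      field_simp
      ring
    rw [h2] at h1
    rw [← (h1.mul_right (G z w)).tsum_eq]
    refine tsum_congr fun n => ?_
    rw [hκ, hκ, inner_smul_left, inner_smul_right, ← hg]
    unfold cf
    rw [map_mul, Complex.conj_ofReal, map_pow, Complex.conj_conj, mul_pow]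
    have h3 : ((Real.sqrt ((n : ℝ) + 1) : ℝ) : ℂ) * (Real.sqrt ((n : ℝ) + 1) : ℝ) = n + 1 := by
      rw [← Complex.ofReal_mul, Real.mul_self_sqrt (by positivity)]
      push_cast
      ring
    linear_combination (pt z ^ n * conj (pt w) ^ n * G z w) * h3
  have hs2 : (Real.sqrt 2 : ℂ) * (Real.sqrt 2 : ℂ) = 2 := by
    rw [← Complex.ofReal_mul, Real.mul_self_sqrt (by norm_num)]
    norm_num
  obtain ⟨F, hF1, hFκ⟩ := exists_vec κ (fun w => (Real.sqrt 2 : ℂ) * conj (pt w)) (hb.congr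
    fun z w => by
      rw [hκi, map_mul, Complex.conj_conj, Complex.conj_ofReal]
      linear_combination (pt z * conj (pt w)) * hs2)
  -- the equality case
  have hFs : Summable fun n => ‖F n‖ ^ 2 := by
    have := lp.memℓp F
    have h3 : (2 : ENNReal).toReal = ((2 : ℕ) : ℝ) := by simp
    have h4 := this.summable (by norm_num)
    simpa only [h3, Real.rpow_natCast] using h4
  have hFt : ∑' n, ‖F n‖ ^ 2 ≤ 1 := by
    have h3 : (2 : ENNReal).toReal = ((2 : ℕ) : ℝ) := by simp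
    have h4 := lp.norm_rpow_eq_tsum (p := 2) (by norm_num) F
    simp only [h3, Real.rpow_natCast] at h4
    rw [← h4]
    exact pow_le_one₀ (norm_nonneg _) hF1
  have hFn : ∀ n, ‖F n‖ ≤ 1 := by
    intro n
    have h2 : ‖F n‖ ^ 2 ≤ 1 := (hFs.le_tsum n fun m _ => sq_nonneg _).trans hFt
    nlinarith [norm_nonneg (F n)]
  have hAi : ∀ x, ⟪∑' n, cf n (pt x) • F n, g x⟫_ℂ = Real.sqrt 2 * conj (pt x) := by
    intro x
    have hsum : Summable fun n => cf n (pt x) • F n := (summable_norm hFn (hpt1 x)).of_norm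
    rw [← hFκ x, lp.inner_eq_tsum, ← inner_conj_symm]
    have h2 : ⟪g x, ∑' n, cf n (pt x) • F n⟫_ℂ = ∑' n, ⟪g x, cf n (pt x) • F n⟫_ℂ :=
      (innerSL ℂ (g x)).map_tsum hsum
    rw [h2, Complex.conj_tsum]
    refine tsum_congr fun n => ?_
    rw [inner_conj_symm, hκ, inner_smul_left, inner_smul_right]
    unfold cf
    rw [map_mul, map_pow, Complex.conj_ofReal]
  have hA : ∀ w : ℂ, ‖w‖ ^ 2 < 1 / 2 → Real.sqrt 2 * ‖w‖ ≤ ‖∑' n, cf n w • F n‖ := by
    intro w hw
    obtain ⟨x, rfl⟩ := hsurj w hw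
    have h2 := congrArg norm (hAi x)
    rw [norm_mul, RCLike.norm_conj, Complex.norm_real, Real.norm_of_nonneg (Real.sqrt_nonneg _)]
      at h2
    rw [← h2]
    refine (norm_inner_le_norm _ _).trans ?_
    exact mul_le_of_le_one_right (norm_nonneg _) (hgn x).le
  obtain ⟨hF0, hF01⟩ := equality hFs hFt hA
  have hAF : ∀ w, ∑' n, cf n w • F n = F 0 + (Real.sqrt 2 * w : ℂ) • F 1 := by
    intro w
    rw [tsum_eq_sum (s := Finset.range 2)]
    · rw [Finset.sum_range_succ, Finset.sum_range_one]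
      unfold cf
      norm_num
    · intro n hn
      rw [Finset.mem_range, not_lt] at hn
      rw [hF0 n hn, smul_zero]
  set α := ⟪F 0, F 1⟫_ℂ with hα
  have hexp : ∀ w : ℂ, ‖F 0 + (Real.sqrt 2 * w : ℂ) • F 1‖ ^ 2 =
      ‖F 0‖ ^ 2 + 2 * Real.sqrt 2 * (w * α).re + 2 * ‖w‖ ^ 2 * ‖F 1‖ ^ 2 := by
    intro w
    rw [@norm_add_sq ℂ, norm_smul, inner_smul_right, mul_pow, norm_mul, mul_pow, Complex.norm_real,
      Real.norm_of_nonneg (Real.sqrt_nonneg _), Real.sq_sqrt (by norm_num), mul_assoc (Real.sqrt 2 : ℂ)]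
    have : (RCLike.re ((Real.sqrt 2 : ℂ) * (w * ⟪F 0, F 1⟫_ℂ)) : ℝ) =
        Real.sqrt 2 * (w * α).re := by
      rw [hα]
      exact Complex.re_ofReal_mul _ _
    rw [this]
    ring
  have hα0 : α = 0 := by
    by_contra hne
    have hpos : 0 < ‖α‖ := norm_pos_iff.2 hne
    -- test points
    have htest : ∀ s : ℝ, 0 < s → s < 1 → s ^ 2 + 2 * s * ‖α‖ ≤ 1 := by
      intro s hs0 hs1
      set w : ℂ := -((s / Real.sqrt 2 / ‖α‖ : ℝ) : ℂ) * conj α with hw
      have hsq : Real.sqrt 2 ^ 2 = 2 := Real.sq_sqrt (by norm_num)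
      have hs2' : 0 < Real.sqrt 2 := by positivity
      have hwn : ‖w‖ = s / Real.sqrt 2 := by
        rw [hw, norm_mul, norm_neg, RCLike.norm_conj, Complex.norm_real,
          Real.norm_of_nonneg (by positivity)]
        field_simp
      have hwn2 : ‖w‖ ^ 2 = s ^ 2 / 2 := by rw [hwn, div_pow, hsq]
      have hwα : (w * α).re = -(s / Real.sqrt 2 * ‖α‖) := by
        have : w * α = ((-(s / Real.sqrt 2 * ‖α‖) : ℝ) : ℂ) := by
          rw [hw, mul_assoc, Complex.conj_mul']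
          push_cast
          have : (‖α‖ : ℂ) ≠ 0 := by exact_mod_cast hpos.ne'
          field_simp
        rw [this, Complex.ofReal_re]
      have h1 := hA w (by rw [hwn2]; nlinarith)
      rw [hAF] at h1
      have h2 : (Real.sqrt 2 * ‖w‖) ^ 2 ≤ ‖F 0 + (Real.sqrt 2 * w : ℂ) • F 1‖ ^ 2 :=
        pow_le_pow_left₀ (by positivity) h1 2
      rw [hexp, hwα, mul_pow, hsq, hwn2] at h2
      have h3 : 2 * Real.sqrt 2 * -(s / Real.sqrt 2 * ‖α‖) = -(2 * s * ‖α‖) := by
        field_simp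
      rw [h3] at h2
      have h4 : 0 ≤ ‖F 1‖ ^ 2 * (1 - s ^ 2) := mul_nonneg (sq_nonneg _) (by nlinarith)
      nlinarith
    have ha1 : ‖α‖ ≤ 1 := by
      refine (norm_inner_le_norm _ _).trans ?_
      exact mul_le_one₀ (hFn 0) (norm_nonneg _) (hFn 1)
    have h5 := htest (1 - ‖α‖ / 4) (by linarith) (by linarith)
    nlinarith
  -- the constant
  set C := ‖F 1‖ ^ 2 with hC
  have hC0 : 0 ≤ C := sq_nonneg _
  have hC1 : C < 1 := by
    by_contra hcon
    have h1 : ‖F 0‖ ^ 2 ≤ 0 := by linarith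
    have h2 : F 0 = 0 := by
      have : ‖F 0‖ = 0 := by nlinarith [norm_nonneg (F 0)]
      exact norm_eq_zero.1 this
    obtain ⟨x, hx⟩ := hsurj (1 / 2) (by norm_num)
    have h3 := hAi x
    rw [hAF, h2, zero_add, inner_smul_left, map_mul, Complex.conj_ofReal] at h3
    have h4 : conj (pt x) ≠ 0 := by
      rw [hx]
      simp
    have h5 : (Real.sqrt 2 : ℂ) ≠ 0 := by
      exact_mod_cast (Real.sqrt_pos.2 (by norm_num : (0 : ℝ) < 2)).ne'
    have h6 : ⟪F 1, g x⟫_ℂ = 1 := by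
      have : ((Real.sqrt 2 : ℂ) * conj (pt x)) * ⟪F 1, g x⟫_ℂ =
        ((Real.sqrt 2 : ℂ) * conj (pt x)) * 1 := by rw [h3, mul_one]
      exact mul_left_cancel₀ (mul_ne_zero h5 h4) this
    have h7 := norm_inner_le_norm (𝕜 := ℂ) (F 1) (g x)
    rw [h6, norm_one] at h7
    nlinarith [hFn 1, hgn x, norm_nonneg (g x), norm_nonneg (F 1)]
  have hC0' : ‖F 0‖ ^ 2 = 1 - C := by linarith
  set P : X → ℂ := fun w => ⟪F 1, g w⟫_ℂ with hP
  have hP1 : ∀ w, ‖P w‖ < 1 := by
    intro w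
    refine (norm_inner_le_norm _ _).trans_lt ?_
    nlinarith [hFn 1, hgn w, norm_nonneg (g w), norm_nonneg (F 1)]
  have hD : ∀ w, 1 - P w ≠ 0 := by
    intro w h
    have h1 : P w = 1 := by linear_combination -h
    have h2 := hP1 w
    rw [h1, norm_one] at h2
    exact lt_irrefl _ h2
  have hQ : ∀ w, ⟪F 0, g w⟫_ℂ = Real.sqrt 2 * conj (pt w) * (1 - P w) := by
    intro w
    have h1 := hAi w
    rw [hAF, inner_add_left, inner_smul_left, map_mul, Complex.conj_ofReal] at h1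
    linear_combination h1
  have hCc : (1 : ℂ) - C ≠ 0 := by
    have : (1 : ℝ) - C ≠ 0 := by linarith
    exact_mod_cast this
  let v : X → H := fun w => g w - ((Real.sqrt 2 * conj (pt w) * (1 - P w)) / (1 - C) : ℂ) • F 0 - F 1
  have hα' : ⟪F 1, F 0⟫_ℂ = 0 := by rw [← inner_conj_symm, ← hα, hα0, map_zero]
  have hv : ∀ z w, ⟪v z, v w⟫_ℂ = G z w -
      2 * (pt z * conj (pt w)) * (1 - conj (P z)) * (1 - P w) / (1 - C) - conj (P z) - P w + C := by
    intro z w
    have e1 : ⟪g z, F 0⟫_ℂ = Real.sqrt 2 * pt z * (1 - conj (P z)) := by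
      rw [← inner_conj_symm, hQ]
      simp
    have e2 : ⟪g z, F 1⟫_ℂ = conj (P z) := by rw [← inner_conj_symm]
    have e3 : ⟪F 1, g w⟫_ℂ = P w := rfl
    have e4 : ⟪F 0, F 0⟫_ℂ = 1 - C := by rw [inner_self', hC0']; push_cast; ring
    have e5 : ⟪F 1, F 1⟫_ℂ = C := by rw [inner_self', hC]
    simp only [v, inner_sub_left, inner_sub_right, inner_smul_left, inner_smul_right, ← hg, e1, e2,
      e3, e4, e5, hQ, hα', ← hα, hα0]
    simp only [map_div₀, map_mul, map_sub, map_one, Complex.conj_ofReal, Complex.conj_conj]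
    field_simp
    linear_combination (-(pt z * conj (pt w) * (1 - conj (P z)) * (1 - P w))) * hs2
  have kM1 := (gram v).add ((const (X := X) (c := (1 - C)⁻¹) (by
    have : 0 < 1 - C := by linarith
    positivity)).mul (rankOne fun w => (C : ℂ) - P w))
  have hP' : ∀ z, 1 - conj (P z) ≠ 0 := fun z h => hD z (by
    have := congrArg conj h
    simpa using this)
  have hM1 : ∀ z w, ⟪v z, v w⟫_ℂ + (((1 - C)⁻¹ : ℝ) : ℂ) * (conj ((C : ℂ) - P z) * (C - P w)) =
      (1 - 2 * (pt z * conj (pt w))) * ((1 - conj (P z)) * (1 - P w)) / (1 - C) - (1 - G z w) := by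
    intro z w
    rw [hv]
    simp only [map_sub, Complex.conj_ofReal, Complex.ofReal_inv, Complex.ofReal_sub,
      Complex.ofReal_one]
    field_simp
    ring
  have k2u : IsKernel fun z w => (2 : ℂ) * (pt z * conj (pt w)) :=
    ((const (X := X) (c := 2) (by norm_num)).mul (rankOne' pt)).congr fun z w => by norm_num
  have k2u1 : ∀ x, ((2 : ℂ) * (pt x * conj (pt x))).re < 1 := by
    intro x
    rw [Complex.mul_conj']
    have : ((2 : ℂ) * (‖pt x‖ : ℂ) ^ 2) = ((2 * ‖pt x‖ ^ 2 : ℝ) : ℂ) := by push_cast; ring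
    rw [this, Complex.ofReal_re]
    linarith [hpt x]
  have kinv := k2u.geom k2u1
  have hne2 := k2u.ne_one k2u1
  have hneG := hG.ne_one hG1
  have kM2 := (kM1.mul ((const (X := X) (c := 1 - C) (by linarith)).mul
    (rankOne fun w => (1 - P w)⁻¹))).mul kinv
  have hM2 : ∀ z w, 1 - (⟪v z, v w⟫_ℂ + (((1 - C)⁻¹ : ℝ) : ℂ) *
      (conj ((C : ℂ) - P z) * (C - P w))) * (((1 - C : ℝ) : ℂ) *
      (conj ((1 - P z)⁻¹) * (1 - P w)⁻¹)) * (1 - 2 * (pt z * conj (pt w)))⁻¹ =
      (1 - G z w) * (1 - C) / ((1 - conj (P z)) * (1 - P w) * (1 - 2 * (pt z * conj (pt w)))) := by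
    intro z w
    rw [hM1, map_inv₀, map_sub, map_one]
    have h1 := hD w
    have h2 := hP' z
    have h3 := hne2 z w
    push_cast
    generalize 1 - 2 * (pt z * conj (pt w)) = U at h3 ⊢
    field_simp
    ring
  have hdiag : ∀ x, ((⟪v x, v x⟫_ℂ + (((1 - C)⁻¹ : ℝ) : ℂ) *
      (conj ((C : ℂ) - P x) * (C - P x))) * (((1 - C : ℝ) : ℂ) *
      (conj ((1 - P x)⁻¹) * (1 - P x)⁻¹)) * (1 - 2 * (pt x * conj (pt x)))⁻¹).re < 1 := by
    intro x
    have h1 := congrArg Complex.re (hM2 x x)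
    rw [Complex.sub_re, Complex.one_re] at h1
    have h2 : 0 < ((1 - G x x) * (1 - C) /
        ((1 - conj (P x)) * (1 - P x) * (1 - 2 * (pt x * conj (pt x))))).re := by
      obtain ⟨hd1, hd2⟩ := hG.diag x
      obtain ⟨hd3, hd4⟩ := k2u.diag x
      have e1 : (1 - conj (P x)) * (1 - P x) = ((‖1 - P x‖ ^ 2 : ℝ) : ℂ) := by
        rw [Complex.ofReal_pow, ← Complex.conj_mul', map_sub, map_one]
      have e2 : (1 : ℂ) - G x x = ((1 - (G x x).re : ℝ) : ℂ) := by
        rw [Complex.ofReal_sub, ← hd2, Complex.ofReal_one]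
      have e3 : (1 : ℂ) - 2 * (pt x * conj (pt x)) =
          ((1 - (2 * (pt x * conj (pt x))).re : ℝ) : ℂ) := by
        rw [Complex.ofReal_sub, ← hd4, Complex.ofReal_one]
      rw [e1, e2, e3, ← Complex.ofReal_mul]
      have e4 : (1 : ℂ) - C = ((1 - C : ℝ) : ℂ) := by push_cast; ring
      rw [e4]
      refine re_div_pos (by linarith [hG1 x]) (by linarith) ?_
      have : 0 < ‖1 - P x‖ := norm_pos_iff.2 (hD x)
      have := k2u1 x
      exact mul_pos (by positivity) (by linarith)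
    linarith
  have kfin := ((const (X := X) (c := 1 - C) (by linarith)).mul
    (rankOne fun w => (1 - P w)⁻¹)).mul (kM2.geom hdiag)
  refine kfin.congr fun z w => ?_
  rw [hM2, map_inv₀, map_sub, map_one]
  have h1 := hD w
  have h2 := hP' z
  have h3 := hne2 z w
  have h4 := hneG z w
  push_cast
  field_simp

end Pool.Agent.X10.MC
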