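import Mathlib

/-!
# Coincidences among sums of two multinomial coefficients

Shared definitions and lemmas for MP_675def_co and MP_dccd56_co.
-/

set_option autoImplicit false

open Finset Filter Nat

namespace Pool.Agent.X10.Mult

/-- The set of distinct values of the multinomial coefficients `n! / (p₁! ⋯ p_t!)`, over all
partitions `n = p₁ + ⋯ + p_t` into positive parts. -/
def multi (n : ℕ) : Finset ℕ :=
  (Finset.univ : Finset n.Partition).image fun p => n ! / (p.parts.map Nat.factorial).prod

/-- `r_n(t)`: the number of pairs `(x, y)` with `x ≤ y` in `multi n` and `x + y = t`. -/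
def r (n t : ℕ) : ℕ :=
  ((multi n ×ˢ multi n).filter fun z => z.1 ≤ z.2 ∧ z.1 + z.2 = t).card

/-- `C(n) = ∑_t max (r_n(t) - 1, 0)` (a finite sum, as `r_n(t) = 0` for `t > 2 n!`; the subtraction
is truncated). -/
noncomputable def C (n : ℕ) : ℕ := ∑ᶠ t : ℕ, (r n t - 1)

/-- `D(n)`: the number of `t` with `r_n(t) ≥ 2`. -/
noncomputable def D (n : ℕ) : ℕ := {t : ℕ | 2 ≤ r n t}.ncard

/-- `μ(n) = max_t r_n(t)`. -/
noncomputable def mu (n : ℕ) : ℕ := ⨆ t : ℕ, r n t

lemma multi_le {n x : ℕ} (hx : x ∈ multi n) : x ≤ n ! := by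
  obtain ⟨p, -, rfl⟩ := Finset.mem_image.1 hx
  exact Nat.div_le_self _ _

lemma r_eq_zero {n t : ℕ} (h : 2 * n ! < t) : r n t = 0 := by
  unfold r
  rw [Finset.card_eq_zero, Finset.filter_eq_empty_iff]
  rintro ⟨x, y⟩ hxy ⟨-, h2⟩
  rw [Finset.mem_product] at hxy
  have h3 := multi_le hxy.1
  have h4 := multi_le hxy.2
  simp only at h2 h3 h4
  omega

lemma r_le (n t : ℕ) : r n t ≤ (multi n).card := by
  unfold r
  apply Finset.card_le_card_of_injOn (fun z => z.1)
  · intro z hz
    exact (Finset.mem_product.1 (Finset.mem_filter.1 hz).1).1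
  · rintro ⟨x, y⟩ hz ⟨x', y'⟩ hz' h
    have h1 := (Finset.mem_filter.1 hz).2.2
    have h2 := (Finset.mem_filter.1 hz').2.2
    simp only at h h1 h2
    rw [Prod.mk.injEq]
    exact ⟨h, by omega⟩

lemma r_bdd (n : ℕ) : BddAbove (Set.range (r n)) := by
  refine ⟨(multi n).card, ?_⟩
  rintro _ ⟨t, rfl⟩
  exact r_le n t

lemma r_le_mu (n t : ℕ) : r n t ≤ mu n := le_ciSup (r_bdd n) t

lemma mu_le (n : ℕ) : mu n ≤ (multi n).card := ciSup_le fun t => r_le n t

lemma D_finite (n : ℕ) : {t : ℕ | 2 ≤ r n t}.Finite := by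
  refine (Set.finite_Iic (2 * n !)).subset ?_
  intro t ht
  by_contra hcon
  rw [Set.mem_Iic, not_le] at hcon
  have := r_eq_zero hcon
  rw [Set.mem_ofPred_eq, this] at ht
  omega

lemma D_le_C (n : ℕ) : D n ≤ C n := by
  unfold C
  rw [finsum_eq_sum_of_support_subset (s := Finset.range (2 * n ! + 1))]
  · have h1 : D n = ∑ t ∈ (Finset.range (2 * n ! + 1)).filter (fun t => 2 ≤ r n t), 1 := by
      rw [Finset.sum_const, smul_eq_mul, mul_one]
      unfold D
      rw [← Set.ncard_coe_finset]
      congr 1
      ext t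
      simp only [Set.mem_ofPred_eq, Finset.coe_filter, Finset.mem_range]
      constructor
      · intro h
        refine ⟨?_, h⟩
        by_contra hcon
        rw [r_eq_zero (by omega)] at h
        omega
      · rintro ⟨-, h⟩
        exact h
    rw [h1, Finset.sum_filter]
    refine Finset.sum_le_sum fun t _ => ?_
    split_ifs with h
    · omega
    · omega
  · intro t ht
    rw [Function.mem_support] at ht
    rw [Finset.mem_coe, Finset.mem_range]
    by_contra hcon
    rw [r_eq_zero (by omega)] at ht
    exact ht rfl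

lemma prod_fact_dvd (s : Multiset ℕ) : (s.map Nat.factorial).prod ∣ (s.sum)! := by
  induction s using Multiset.induction_on with
  | empty => simp
  | cons a l ih =>
    rw [Multiset.map_cons, Multiset.prod_cons, Multiset.sum_cons]
    exact (mul_dvd_mul_left _ ih).trans (Nat.factorial_mul_factorial_dvd_factorial_add a _)

/-- a multinomial coefficient from a multiset of weight at most `n` -/
lemma mem_multi {n : ℕ} (s : Multiset ℕ) (hs : s.sum ≤ n) :
    n ! / (s.map Nat.factorial).prod ∈ multi n := by
  have h1 : (s + Multiset.replicate (n - s.sum) 1).sum = n := by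
    rw [Multiset.sum_add, Multiset.sum_replicate, smul_eq_mul, mul_one]
    omega
  refine Finset.mem_image.2 ⟨Nat.Partition.ofSums n _ h1, Finset.mem_univ _, ?_⟩
  have h2 : ∀ l : Multiset ℕ, ((l.filter (fun x => x ≠ 0)).map Nat.factorial).prod =
      (l.map Nat.factorial).prod := by
    intro l
    induction l using Multiset.induction_on with
    | empty => simp
    | cons a l ih =>
      by_cases ha : a = 0
      · rw [Multiset.filter_cons_of_neg (p := fun x => x ≠ 0) _ (not_not.2 ha), ih,
          Multiset.map_cons, Multiset.prod_cons, ha, Nat.factorial_zero, one_mul]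
      · rw [Multiset.filter_cons_of_pos (p := fun x => x ≠ 0) _ ha, Multiset.map_cons,
          Multiset.prod_cons, ih, Multiset.map_cons, Multiset.prod_cons]
  have h3 : (Nat.Partition.ofSums n _ h1).parts =
      (s + Multiset.replicate (n - s.sum) 1).filter (fun x => x ≠ 0) := rfl
  rw [h3, h2, Multiset.map_add, Multiset.prod_add, Multiset.map_replicate,
    Multiset.prod_replicate, Nat.factorial_one, one_pow, mul_one]

/-- `D(n) ≥ M(n - 5)` -/
lemma card_le_D (n : ℕ) : (multi n).card ≤ D (n + 5) := by
  classical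
  unfold D
  rw [← Set.ncard_coe_finset]
  -- the map `m ↦ m (n+1)⋯(n+5) / 3`
  obtain ⟨c, hc⟩ : 6 ∣ (n + 1) * (n + 2) * (n + 3) := by
    have h := Nat.factorial_dvd_descFactorial (n + 3) 3
    have e : (n + 3).descFactorial 3 = (n + 1) * (n + 2) * (n + 3) := by
      simp [Nat.descFactorial]
      ring
    rw [e] at h
    exact h
  have hfac : (n + 5)! = n ! * (6 * c) * ((n + 4) * (n + 5)) := by
    rw [← hc]
    simp only [Nat.factorial_succ]
    ring
  obtain ⟨d, hd⟩ : 2 ∣ (n + 4) * (n + 5) := by
    exact (Nat.even_mul_succ_self (n + 4)).two_dvd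
  have hc0 : 0 < c := by
    rcases Nat.eq_zero_or_pos c with h | h
    · rw [h] at hc
      have : 0 < (n + 1) * (n + 2) * (n + 3) := by positivity
      omega
    · exact h
  have hd0 : 0 < d := by
    rcases Nat.eq_zero_or_pos d with h | h
    · rw [h] at hd
      have : 0 < (n + 4) * (n + 5) := by positivity
      omega
    · exact h
  apply Set.ncard_le_ncard_of_injOn (fun m => m * (4 * (c * d))) (ht := D_finite (n + 5))
  · intro m hm
    obtain ⟨p, -, rfl⟩ := Finset.mem_image.1 (Finset.mem_coe.1 hm)
    set G := (p.parts.map Nat.factorial).prod with hG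
    have hdvd : G ∣ n ! := by
      have h := prod_fact_dvd p.parts
      rw [p.parts_sum] at h
      exact h
    have hG0 : 0 < G := Nat.pos_of_dvd_of_pos hdvd (Nat.factorial_pos n)
    obtain ⟨w, hw⟩ := hdvd
    have hw2 : n ! / G = w := by rw [hw, Nat.mul_div_cancel_left _ hG0]
    have hw0 : 0 < w := by
      rcases Nat.eq_zero_or_pos w with h | h
      · rw [h, mul_zero] at hw
        exact absurd hw (Nat.factorial_pos n).ne'
      · exact h
    have hF : (n + 5)! = G * 12 * (w * (c * d)) := by
      rw [hfac, hd, hw]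
      ring
    have hx : ∀ s : Multiset ℕ, s.sum ≤ 5 → ∀ e f : ℕ, (s.map Nat.factorial).prod = e →
        0 < e → e * f = 12 → w * (c * d) * f ∈ multi (n + 5) := by
      intro s hs e f he he0 hef
      have h1 := mem_multi (n := n + 5) (p.parts + s) (by
        rw [Multiset.sum_add, p.parts_sum]
        omega)
      rw [Multiset.map_add, Multiset.prod_add, ← hG, he] at h1
      have h2 : (n + 5)! = G * e * (w * (c * d) * f) := by
        rw [hF, ← hef]
        ring
      rw [h2, Nat.mul_div_cancel_left _ (by positivity)] at h1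
      exact h1
    have h1 : w * (c * d) * 1 ∈ multi (n + 5) :=
      hx {3, 2} (by simp) 12 1 (by simp [Nat.factorial]) (by norm_num) (by norm_num)
    have h2 : w * (c * d) * 2 ∈ multi (n + 5) :=
      hx {3} (by simp) 6 2 (by simp [Nat.factorial]) (by norm_num) (by norm_num)
    have h3 : w * (c * d) * 3 ∈ multi (n + 5) :=
      hx {2, 2} (by simp) 4 3 (by simp [Nat.factorial]) (by norm_num) (by norm_num)
    rw [hw2]
    show 2 ≤ r (n + 5) (w * (4 * (c * d)))
    unfold r
    have hpos : 0 < w * (c * d) := by positivity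
    have hsub : ({(w * (c * d) * 1, w * (c * d) * 3), (w * (c * d) * 2, w * (c * d) * 2)} :
        Finset (ℕ × ℕ)) ⊆ (multi (n + 5) ×ˢ multi (n + 5)).filter
          fun z => z.1 ≤ z.2 ∧ z.1 + z.2 = w * (4 * (c * d)) := by
      intro z hz
      rw [Finset.mem_insert, Finset.mem_singleton] at hz
      rw [Finset.mem_filter, Finset.mem_product]
      rcases hz with rfl | rfl
      · exact ⟨⟨h1, h3⟩, by simp only; omega, by simp only; ring⟩
      · exact ⟨⟨h2, h2⟩, le_rfl, by simp only; ring⟩
    have hcard := Finset.card_le_card hsub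
    rw [Finset.card_pair (by
      intro h
      rw [Prod.mk.injEq] at h
      omega)] at hcard
    exact hcard
  · intro a _ b _ h
    have h' : a * (4 * (c * d)) = b * (4 * (c * d)) := h
    exact Nat.eq_of_mul_eq_mul_right (by positivity) h'

end Pool.Agent.X10.Mult
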