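import Pool.Agent.X10.Mult

/-!
# Superpolynomial growth of the coincidence statistics of multinomial coefficients

Let `P` be the set of primes up to `y`, `y ^ 2 ≤ n`, and `Q` the product of the `p!`, `p ∈ P`.
For every `S ⊆ P` the number `(n! / Q) ∏ S` is a multinomial coefficient with upper entry `n`
(replace the part `p` by `p - 1` for `p ∈ S`).  So the multinomial coefficients contain a dilate of
the set of all squarefree `y`-smooth numbers, and pigeonhole among the products of `u` primes gives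
many representations.
-/

set_option autoImplicit false

open Finset Filter Nat

namespace Pool.Agent.X10.Mult

/-- the primes up to `y` -/
def P (y : ℕ) : Finset ℕ := (Finset.range (y + 1)).filter Nat.Prime

lemma sum_P {n y : ℕ} (h : y ^ 2 ≤ n) : ∑ p ∈ P y, p ≤ n := by
  have h1 : ∑ p ∈ P y, p ≤ ∑ p ∈ Finset.range (y + 1), p :=
    Finset.sum_le_sum_of_subset (Finset.filter_subset _ _)
  have h2 := Finset.sum_range_id_mul_two (y + 1)
  have h3 : (y + 1) * (y + 1 - 1) ≤ 2 * y ^ 2 := by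
    rcases Nat.eq_zero_or_pos y with h | h
    · subst h; simp
    · rw [Nat.add_sub_cancel]
      nlinarith
  omega

lemma dilate_mem {n y : ℕ} (h : y ^ 2 ≤ n) {S : Finset ℕ} (hS : S ⊆ P y) :
    n ! / (∏ p ∈ P y, p !) * ∏ p ∈ S, p ∈ multi n := by
  classical
  set f : ℕ → ℕ := fun p => if p ∈ S then p - 1 else p with hf
  have hsum : ((P y).val.map f).sum ≤ n := by
    have h1 : ((P y).val.map f).sum = ∑ p ∈ P y, f p := rfl
    rw [h1]
    refine le_trans (Finset.sum_le_sum fun p _ => ?_) (sum_P h)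
    rw [hf]
    simp only
    split_ifs <;> omega
  have h1 := mem_multi ((P y).val.map f) hsum
  have h2 : (((P y).val.map f).map Nat.factorial).prod = ∏ p ∈ P y, (f p)! := by
    rw [Multiset.map_map]
    rfl
  rw [h2] at h1
  have h3 : (∏ p ∈ P y, (f p)!) * ∏ p ∈ S, p = ∏ p ∈ P y, p ! := by
    have h4 : ∏ p ∈ S, p = ∏ p ∈ P y, if p ∈ S then p else 1 := by
      rw [Finset.prod_ite_mem, Finset.inter_eq_right.2 hS]
    rw [h4, ← Finset.prod_mul_distrib]
    refine Finset.prod_congr rfl fun p hp => ?_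
    have hp1 : p.Prime := (Finset.mem_filter.1 hp).2
    rw [hf]
    simp only
    split_ifs with h5
    · rw [mul_comm]
      exact Nat.mul_factorial_pred hp1.pos.ne'
    · rw [mul_one]
  have hQ : (∏ p ∈ P y, p !) ∣ n ! := by
    have h5 := prod_fact_dvd (P y).val
    have h6 : ((P y).val.map Nat.factorial).prod = ∏ p ∈ P y, p ! := rfl
    have h7 : (P y).val.sum = ∑ p ∈ P y, p := by
      rw [Finset.sum_eq_multiset_sum, Multiset.map_id']
    rw [h6, h7] at h5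
    exact h5.trans (Nat.factorial_dvd_factorial (sum_P h))
  obtain ⟨t, ht⟩ := hQ
  have hQ0 : 0 < ∏ p ∈ P y, p ! := Finset.prod_pos fun p _ => Nat.factorial_pos p
  have hf0 : 0 < ∏ p ∈ P y, (f p)! := Finset.prod_pos fun p _ => Nat.factorial_pos _
  have h5 : n ! / (∏ p ∈ P y, p !) = t := by rw [ht, Nat.mul_div_cancel_left _ hQ0]
  have h6 : n ! / (∏ p ∈ P y, (f p)!) = t * ∏ p ∈ S, p := by
    rw [ht, ← h3, mul_assoc, mul_comm (∏ p ∈ S, p) t, Nat.mul_div_cancel_left _ hf0]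
  rw [h5, ← h6]
  exact h1

lemma choose_sq_le {n y : ℕ} (h : y ^ 2 ≤ n) (u : ℕ) :
    ((P y).card.choose u) ^ 2 ≤ (2 * y ^ u + 1) * (2 * mu n) := by
  classical
  set J : Finset ℕ := ((P y).powersetCard u).image fun S => ∏ p ∈ S, p with hJ
  have hJcard : J.card = (P y).card.choose u := by
    rw [hJ, Finset.card_image_of_injOn, Finset.card_powersetCard]
    intro S hS S' hS' heq
    have hS1 := (Finset.mem_powersetCard.1 (Finset.mem_coe.1 hS)).1
    have hS1' := (Finset.mem_powersetCard.1 (Finset.mem_coe.1 hS')).1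
    have e1 : (∏ p ∈ S, p).primeFactors = S :=
      Nat.primeFactors_prod fun p hp => (Finset.mem_filter.1 (hS1 hp)).2
    have e2 : (∏ p ∈ S', p).primeFactors = S' :=
      Nat.primeFactors_prod fun p hp => (Finset.mem_filter.1 (hS1' hp)).2
    have heq' : ∏ p ∈ S, p = ∏ p ∈ S', p := heq
    rw [← e1, ← e2, heq']
  have hJle : ∀ j ∈ J, j ≤ y ^ u := by
    intro j hj
    obtain ⟨S, hS, rfl⟩ := Finset.mem_image.1 hj
    obtain ⟨hS1, hS2⟩ := Finset.mem_powersetCard.1 hS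
    rw [← hS2]
    refine Finset.prod_le_pow_card _ _ _ fun p hp => ?_
    have := Finset.mem_range.1 (Finset.mem_filter.1 (hS1 hp)).1
    omega
  set t : ℕ := n ! / (∏ p ∈ P y, p !) with ht
  have ht0 : 0 < t := by
    have h0 := dilate_mem h (Finset.empty_subset (P y))
    rw [Finset.prod_empty, mul_one] at h0
    obtain ⟨p, -, hp⟩ := Finset.mem_image.1 h0
    rw [ht, ← hp]
    apply Nat.div_pos
    · have h5 := prod_fact_dvd p.parts
      rw [p.parts_sum] at h5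
      exact Nat.le_of_dvd (Nat.factorial_pos n) h5
    · have h5 := prod_fact_dvd p.parts
      exact Nat.pos_of_dvd_of_pos h5 (Nat.factorial_pos _)
  have hJmem : ∀ j ∈ J, t * j ∈ multi n := by
    intro j hj
    obtain ⟨S, hS, rfl⟩ := Finset.mem_image.1 hj
    exact dilate_mem h (Finset.mem_powersetCard.1 hS).1
  -- pigeonhole
  obtain ⟨s, hs⟩ : ∃ s, J.card ^ 2 ≤
      (2 * y ^ u + 1) * ((J ×ˢ J).filter fun z => z.1 + z.2 = s).card := by
    by_contra hcon
    push Not at hcon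
    have h1 : (J ×ˢ J).card = ∑ s ∈ Finset.range (2 * y ^ u + 1),
        ((J ×ˢ J).filter fun z => z.1 + z.2 = s).card := by
      apply Finset.card_eq_sum_card_fiberwise
      intro z hz
      have hz' := Finset.mem_product.1 (Finset.mem_coe.1 hz)
      have h2 := hJle _ hz'.1
      have h3 := hJle _ hz'.2
      have h4 : z.1 + z.2 < 2 * y ^ u + 1 := by omega
      exact Finset.mem_coe.2 (Finset.mem_range.2 h4)
    have h2 : ∑ s ∈ Finset.range (2 * y ^ u + 1),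
        (2 * y ^ u + 1) * ((J ×ˢ J).filter fun z => z.1 + z.2 = s).card <
        ∑ s ∈ Finset.range (2 * y ^ u + 1), J.card ^ 2 :=
      Finset.sum_lt_sum_of_nonempty ⟨0, Finset.mem_range.2 (by omega)⟩ fun s _ => hcon s
    rw [← Finset.mul_sum, ← h1, Finset.card_product, Finset.sum_const, Finset.card_range,
      smul_eq_mul, pow_two] at h2
    exact lt_irrefl _ h2
  rw [← hJcard]
  refine hs.trans (Nat.mul_le_mul_left _ ?_)
  -- ordered pairs
  have h1 : ((J ×ˢ J).filter fun z => z.1 + z.2 = s) ⊆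
      ((J ×ˢ J).filter fun z => z.1 ≤ z.2 ∧ z.1 + z.2 = s) ∪
      ((J ×ˢ J).filter fun z => z.1 ≤ z.2 ∧ z.1 + z.2 = s).image Prod.swap := by
    rintro ⟨a, b⟩ hz
    rw [Finset.mem_filter, Finset.mem_product] at hz
    obtain ⟨⟨h1, h2⟩, h3⟩ := hz
    rw [Finset.mem_union]
    rcases le_total a b with h4 | h4
    · left
      exact Finset.mem_filter.2 ⟨Finset.mem_product.2 ⟨h1, h2⟩, h4, h3⟩
    · right
      refine Finset.mem_image.2 ⟨(b, a), Finset.mem_filter.2 ⟨Finset.mem_product.2 ⟨h2, h1⟩,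
        h4, ?_⟩, rfl⟩
      simp only at h3 ⊢
      omega
  have h2 := (Finset.card_le_card h1).trans (Finset.card_union_le _ _)
  have h3 := Finset.card_image_le (s := (J ×ˢ J).filter fun z => z.1 ≤ z.2 ∧ z.1 + z.2 = s)
    (f := Prod.swap)
  have h4 : ((J ×ˢ J).filter fun z => z.1 ≤ z.2 ∧ z.1 + z.2 = s).card ≤ r n (t * s) := by
    unfold r
    apply Finset.card_le_card_of_injOn (fun z => (t * z.1, t * z.2))
    · rintro ⟨a, b⟩ hz
      rw [Finset.mem_coe, Finset.mem_filter, Finset.mem_product] at hz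
      obtain ⟨⟨h1, h2⟩, h3, h4⟩ := hz
      rw [Finset.mem_coe, Finset.mem_filter, Finset.mem_product]
      refine ⟨⟨hJmem a h1, hJmem b h2⟩, Nat.mul_le_mul_left _ h3, ?_⟩
      simp only at h4 ⊢
      rw [← h4, mul_add]
    · rintro ⟨a, b⟩ _ ⟨a', b'⟩ _ heq
      rw [Prod.mk.injEq] at heq ⊢
      exact ⟨Nat.eq_of_mul_eq_mul_left ht0 heq.1, Nat.eq_of_mul_eq_mul_left ht0 heq.2⟩
  have h5 := r_le_mu n (t * s)
  omega

/-- there are many primes -/
lemma card_P_ge : ∃ Y : ℕ, ∀ y ≥ Y, y ^ 3 ≤ (P y).card ^ 4 := by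
  have h1 : ∀ᶠ y : ℕ in atTop, Real.log y ≤ 1 / 4 * (y : ℝ) ^ (1 / 4 : ℝ) := by
    have h := isLittleO_log_rpow_atTop (r := (1 / 4 : ℝ)) (by norm_num)
    have h2 := (h.comp_tendsto tendsto_natCast_atTop_atTop).bound (show (0 : ℝ) < 1 / 4 by norm_num)
    filter_upwards [h2, eventually_ge_atTop 1] with y hy hy1
    have hy1' : (1 : ℝ) ≤ y := by exact_mod_cast hy1
    simp only [Function.comp] at hy
    rw [Real.norm_of_nonneg (Real.log_nonneg hy1'), Real.norm_of_nonneg (by positivity)] at hy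
    exact hy
  have h2 : ∀ᶠ y : ℕ in atTop, Real.log ((y : ℝ) + 1) ≤ 1 / 4 * (y : ℝ) := by
    have h : (fun x : ℝ => Real.log x) =o[atTop] fun x : ℝ => x := Real.isLittleO_log_id_atTop
    have h3 := ((h.comp_tendsto tendsto_natCast_atTop_atTop).comp_tendsto
      (tendsto_add_atTop_nat 1)).bound (show (0 : ℝ) < 1 / 8 by norm_num)
    filter_upwards [h3, eventually_ge_atTop 1] with y hy hy1
    have hy1' : (1 : ℝ) ≤ y := by exact_mod_cast hy1
    simp only [Function.comp] at hy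
    push_cast at hy
    rw [Real.norm_of_nonneg (Real.log_nonneg (by linarith)), Real.norm_of_nonneg (by positivity)]
      at hy
    linarith
  obtain ⟨Y, hY⟩ := eventually_atTop.1 ((h1.and h2).and (eventually_ge_atTop 2))
  refine ⟨Y, fun y hy => ?_⟩
  obtain ⟨⟨hl1, hl2⟩, hy2⟩ := hY y hy
  have hy2' : (2 : ℝ) ≤ y := by exact_mod_cast hy2
  have hlog : 0 < Real.log y := Real.log_pos (by linarith)
  have h3 := Chebyshev.psi_ge y
  have h4 := Chebyshev.psi_le_primeCounting_mul_log y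
  have hπ : (Nat.primeCounting y) = (P y).card := by
    rw [Nat.primeCounting, Nat.primeCounting', Nat.count_eq_card_filter_range]
    rfl
  rw [hπ] at h4
  have hln2 : (1 / 2 : ℝ) ≤ Real.log 2 := by
    have := Real.log_two_gt_d9
    linarith
  have h5 : (y : ℝ) ^ (3 / 4 : ℝ) * Real.log y ≤ (P y).card * Real.log y := by
    have h6 : (y : ℝ) ^ (3 / 4 : ℝ) * Real.log y ≤ 1 / 4 * y := by
      calc (y : ℝ) ^ (3 / 4 : ℝ) * Real.log y
          ≤ (y : ℝ) ^ (3 / 4 : ℝ) * (1 / 4 * (y : ℝ) ^ (1 / 4 : ℝ)) :=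
            mul_le_mul_of_nonneg_left hl1 (by positivity)
        _ = 1 / 4 * ((y : ℝ) ^ (3 / 4 : ℝ) * (y : ℝ) ^ (1 / 4 : ℝ)) := by ring
        _ = 1 / 4 * y := by
            rw [← Real.rpow_add (by linarith)]
            norm_num
    nlinarith
  have h6 : (y : ℝ) ^ (3 / 4 : ℝ) ≤ (P y).card := le_of_mul_le_mul_right h5 hlog
  have h7 : ((y : ℝ) ^ (3 / 4 : ℝ)) ^ 4 ≤ ((P y).card : ℝ) ^ 4 :=
    pow_le_pow_left₀ (by positivity) h6 4
  have h8 : ((y : ℝ) ^ (3 / 4 : ℝ)) ^ 4 = (y : ℝ) ^ 3 := by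
    rw [← Real.rpow_natCast, ← Real.rpow_mul (by linarith), ← Real.rpow_natCast]
    norm_num
  rw [h8] at h7
  exact_mod_cast h7

/-- `μ(n)` grows faster than every power of `n` -/
theorem mu_ge (K : ℕ) : ∃ N : ℕ, ∀ n ≥ N, n ^ K ≤ mu n := by
  obtain ⟨Y, hY⟩ := card_P_ge
  set u : ℕ := 4 * K + 1 with hu
  set c : ℕ := u ! * 2 ^ u with hc
  set Z : ℕ := Y + (2 * u) ^ 2 + 36 * c ^ 4 * 16 ^ K + 2 with hZ
  refine ⟨Z ^ 2, fun n hn => ?_⟩
  set y : ℕ := Nat.sqrt n with hy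
  have hyZ : Z ≤ y := by
    rw [hy, Nat.le_sqrt']
    exact hn
  have hy1 : 1 ≤ y := by omega
  have hyn : y ^ 2 ≤ n := Nat.sqrt_le' n
  have hny : n ≤ 4 * y ^ 2 := by
    have := Nat.lt_succ_sqrt' n
    rw [← hy] at this
    have h2 : (y + 1) ^ 2 ≤ (2 * y) ^ 2 := Nat.pow_le_pow_left (by omega) 2
    have h3 : (2 * y) ^ 2 = 4 * y ^ 2 := by ring
    have h4 : n < (y + 1) ^ 2 := this
    omega
  set π := (P y).card with hπ
  have hπ4 : y ^ 3 ≤ π ^ 4 := hY y (by omega)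
  have hπu : 2 * u ≤ π := by
    by_contra hcon
    push Not at hcon
    have h1 : π ^ 4 ≤ (2 * u) ^ 4 := Nat.pow_le_pow_left hcon.le 4
    have h2 : (2 * u) ^ 4 < y ^ 3 := by
      have h3 : (2 * u) ^ 2 < y := by omega
      calc (2 * u) ^ 4 = ((2 * u) ^ 2) ^ 2 := by ring
        _ < y ^ 2 := Nat.pow_lt_pow_left h3 (by norm_num)
        _ ≤ y ^ 3 := Nat.pow_le_pow_right hy1 (by norm_num)
    omega
  -- lower bound for the binomial coefficient
  set B := π.choose u with hB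
  have hBc : π ^ u ≤ c * B := by
    have h1 : (π + 1 - u) ^ u ≤ π.descFactorial u := Nat.pow_sub_le_descFactorial π u
    rw [Nat.descFactorial_eq_factorial_mul_choose] at h1
    have h2 : π ^ u ≤ (2 * (π + 1 - u)) ^ u := Nat.pow_le_pow_left (by omega) u
    rw [mul_pow] at h2
    calc π ^ u ≤ 2 ^ u * (π + 1 - u) ^ u := h2
      _ ≤ 2 ^ u * (u ! * B) := Nat.mul_le_mul_left _ h1
      _ = c * B := by rw [hc]; ring
  have hB2 : B ^ 2 ≤ 6 * y ^ u * mu n := by
    have h1 := choose_sq_le hyn u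
    rw [← hπ, ← hB] at h1
    have h2 : 1 ≤ y ^ u := Nat.one_le_pow _ _ hy1
    calc B ^ 2 ≤ (2 * y ^ u + 1) * (2 * mu n) := h1
      _ ≤ (3 * y ^ u) * (2 * mu n) := Nat.mul_le_mul_right _ (by omega)
      _ = 6 * y ^ u * mu n := by ring
  have hmain : y ^ u ≤ 36 * c ^ 4 * (mu n) ^ 2 := by
    have h1 : y ^ (2 * u) * y ^ u ≤ y ^ (2 * u) * (36 * c ^ 4 * (mu n) ^ 2) := by
      calc y ^ (2 * u) * y ^ u = (y ^ 3) ^ u := by rw [← pow_add, ← pow_mul]; congr 1; ring
        _ ≤ (π ^ 4) ^ u := Nat.pow_le_pow_left hπ4 u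
        _ = (π ^ u) ^ 4 := by rw [← pow_mul, ← pow_mul, mul_comm]
        _ ≤ (c * B) ^ 4 := Nat.pow_le_pow_left hBc 4
        _ = c ^ 4 * (B ^ 2) ^ 2 := by ring
        _ ≤ c ^ 4 * (6 * y ^ u * mu n) ^ 2 := Nat.mul_le_mul_left _ (Nat.pow_le_pow_left hB2 2)
        _ = y ^ (2 * u) * (36 * c ^ 4 * (mu n) ^ 2) := by rw [mul_comm 2 u, pow_mul]; ring
    exact Nat.le_of_mul_le_mul_left h1 (by positivity)
  by_contra hcon
  push Not at hcon
  have h1 : (mu n) ^ 2 ≤ (n ^ K) ^ 2 := Nat.pow_le_pow_left hcon.le 2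
  have h2 : (n ^ K) ^ 2 ≤ 16 ^ K * y ^ (4 * K) := by
    calc (n ^ K) ^ 2 ≤ ((4 * y ^ 2) ^ K) ^ 2 :=
          Nat.pow_le_pow_left (Nat.pow_le_pow_left hny K) 2
      _ = (4 ^ 2) ^ K * (y ^ 4) ^ K := by
          rw [← pow_mul, ← mul_pow, mul_comm K 2, pow_mul]
          congr 1
          ring
      _ = 16 ^ K * y ^ (4 * K) := by
          rw [← pow_mul y]
          norm_num
  have h3 : y ^ u ≤ 36 * c ^ 4 * (16 ^ K * y ^ (4 * K)) :=
    hmain.trans (Nat.mul_le_mul_left _ (h1.trans h2))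
  have h4 : y ^ u = y ^ (4 * K) * y := by rw [hu, pow_succ]
  have h5 : y ^ (4 * K) * y ≤ y ^ (4 * K) * (36 * c ^ 4 * 16 ^ K) := by
    rw [← h4]
    calc y ^ u ≤ 36 * c ^ 4 * (16 ^ K * y ^ (4 * K)) := h3
      _ = y ^ (4 * K) * (36 * c ^ 4 * 16 ^ K) := by ring
  have h6 : y ≤ 36 * c ^ 4 * 16 ^ K := Nat.le_of_mul_le_mul_left h5 (by positivity)
  omega

/-- the number of distinct multinomial coefficients grows faster than every power of `n` -/
theorem card_ge (K : ℕ) : ∃ N : ℕ, ∀ n ≥ N, n ^ K ≤ (multi n).card := by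
  obtain ⟨N, hN⟩ := mu_ge K
  exact ⟨N, fun n hn => (hN n hn).trans (mu_le n)⟩

/-- `D(n)` grows faster than every power of `n` -/
theorem D_ge (K : ℕ) : ∃ N : ℕ, ∀ n ≥ N, n ^ K ≤ D n := by
  obtain ⟨N, hN⟩ := card_ge (K + 1)
  refine ⟨N + 10 + 2 ^ (K + 1), fun n hn => ?_⟩
  have h0 : 1 ≤ 2 ^ (K + 1) := Nat.one_le_two_pow
  obtain ⟨m, rfl⟩ : ∃ m, n = m + 5 := ⟨n - 5, by omega⟩
  refine le_trans ?_ (card_le_D m)
  refine le_trans ?_ (hN m (by omega))
  have h1 : m + 5 ≤ 2 * m := by omega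
  have h2 : 2 ^ K ≤ m := by
    have : 2 ^ (K + 1) = 2 * 2 ^ K := by ring
    have h3 : 1 ≤ 2 ^ K := Nat.one_le_two_pow
    omega
  calc (m + 5) ^ K ≤ (2 * m) ^ K := Nat.pow_le_pow_left h1 K
    _ = 2 ^ K * m ^ K := by ring
    _ ≤ m * m ^ K := Nat.mul_le_mul_right _ h2
    _ = m ^ (K + 1) := by ring

/-- `C(n)` grows faster than every power of `n` -/
theorem C_ge (K : ℕ) : ∃ N : ℕ, ∀ n ≥ N, n ^ K ≤ C n := by
  obtain ⟨N, hN⟩ := D_ge K
  exact ⟨N, fun n hn => (hN n hn).trans (D_le_C n)⟩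

end Pool.Agent.X10.Mult
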